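import Mathlib

/-!
Definitions for the recursive bipartite construction showing that the on-line choice number is not
bounded by a polynomial in the choice number.
-/

set_option autoImplicit false

namespace Run7.h264

/-- Lister wins the on-line list colouring game from the position with uncoloured set `U` and
tokens `f`. -/
inductive LW {W : Type} [DecidableEq W] (G : SimpleGraph W) : Finset W → (W → ℕ) → Prop
  | step (U : Finset W) (f : W → ℕ) (M : Finset W) (hM : M ⊆ U) (hne : M.Nonempty)
      (h : ∀ I : Finset W, I ⊆ M → (∀ u ∈ I, ∀ v ∈ I, ¬ G.Adj u v) → (∀ v ∈ M, 1 ≤ f v) →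
        (∀ v ∈ M \ I, 2 ≤ f v) → LW G (U \ I) (fun v => if v ∈ M then f v - 1 else f v)) :
      LW G U f

/-- the slice of `S` in copy `a` -/
def slc {N : ℕ} {V : Type} [Fintype V] [DecidableEq V] (S : Finset (Fin N × V)) (a : Fin N) :
    Finset V := Finset.univ.filter (fun v => (a, v) ∈ S)

/-- number of arcs of `h` inside `S` -/
def ecnt {X : Type} [Fintype X] [DecidableEq X] {d : ℕ} (h : X × Fin d → X) (S : Finset X) : ℕ :=
  (Finset.univ.filter (fun p : X × Fin d => p.1 ∈ S ∧ h p ∈ S)).card

/-- the next graph: disjoint copies of `H` plus the arcs of `h` between different sides -/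
def newG {N : ℕ} {V : Type} (H : SimpleGraph V) (side : V → Bool) {d : ℕ}
    (h : (Fin N × V) × Fin d → Fin N × V) : SimpleGraph (Fin N × V) where
  Adj x y := (x.1 = y.1 ∧ H.Adj x.2 y.2) ∨
    (side x.2 ≠ side y.2 ∧ ∃ j, h (x, j) = y ∨ h (y, j) = x)
  symm := ⟨by
    rintro x y (⟨h1, h2⟩ | ⟨h1, j, h2⟩)
    · exact Or.inl ⟨h1.symm, h2.symm⟩
    · exact Or.inr ⟨fun e => h1 e.symm, j, h2.symm⟩⟩
  loopless := ⟨by
    rintro x (⟨_, h2⟩ | ⟨h1, _⟩)
    · exact H.loopless.irrefl _ h2
    · exact h1 rfl⟩

open Classical in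
/-- the on-line property at level `i` -/
def OnP (q i : ℕ) {V : Type} [Fintype V] (side : V → Bool) (H : SimpleGraph V) : Prop :=
  ∀ (W : Type) [DecidableEq W] (G : SimpleGraph W) (φ : V → W), Function.Injective φ →
    (∀ x y, H.Adj x y → G.Adj (φ x) (φ y)) → ∀ (U : Finset W) (f : W → ℕ) (F : Bool → ℕ),
    4 * q * (Finset.univ.filter (fun v => φ v ∉ U)).card ≤ (q - i) * Fintype.card V →
    (∀ v, φ v ∈ U → f (φ v) ≤ F (side v)) → F true + F false ≤ i + 1 → LW G U f

/-- colours of `v` allowed by the pattern `π` -/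
def Us {V : Type} (L : V → Finset ℕ) (side : V → Bool) (π : ℕ → Bool) (v : V) : Finset ℕ :=
  (L v).filter (fun c => π c = side v)

/-- number of vertices with few colours allowed by `π` -/
def failc {V : Type} [Fintype V] (κ : ℕ) (L : V → Finset ℕ) (side : V → Bool) (π : ℕ → Bool) : ℕ :=
  (Finset.univ.filter (fun v => (Us L side π v).card < κ)).card

/-- number of vertices with few colours allowed by both patterns -/
def pbad {V : Type} [Fintype V] (m : ℕ) (L : V → Finset ℕ) (side : V → Bool) (π' π : ℕ → Bool) :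
    ℕ :=
  (Finset.univ.filter (fun v => (Us L side π' v ∩ Us L side π v).card < m)).card

/-- number of vertices whose set `O v` is not contained in the colours allowed by `π` -/
def esc {V : Type} [Fintype V] (L O : V → Finset ℕ) (side : V → Bool) (π : ℕ → Bool) : ℕ :=
  (Finset.univ.filter (fun v => ¬ O v ⊆ Us L side π v)).card

open Classical in
/-- number of ordered conflicting pairs inside `S` -/
noncomputable def conf {V : Type} [DecidableEq V] (H : SimpleGraph V) (O : V → Finset ℕ)
    (S : Finset V) : ℕ :=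
  ((S ×ˢ S).filter (fun p => H.Adj p.1 p.2 ∧ ¬ Disjoint (O p.1) (O p.2))).card

/-- the off-line property at level `i` -/
def OffP (q i k κ m E : ℕ) {V : Type} [Fintype V] [DecidableEq V] (side : V → Bool)
    (H : SimpleGraph V) (c : Finset V → ℕ) : Prop :=
  ∀ L : V → Finset ℕ, (∀ v, k ≤ (L v).card) → ∀ π' π : ℕ → Bool,
    E * failc κ L side π ≤ Fintype.card V → ∃ O : V → Finset ℕ,
      (∀ v, O v ⊆ L v) ∧ (∀ v, m ≤ (O v).card) ∧
      E * esc L O side π ≤ E * failc κ L side π + Fintype.card V ∧
      esc L O side π' ≤ pbad m L side π' π + E * failc κ L side π ∧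
      ∀ S : Finset V, q * conf H O S ≤ 2 * (i * S.card + q * c S)

/-- the recursion for the potential -/
def newc {N : ℕ} {V : Type} [Fintype V] [DecidableEq V] (B : ℕ) {d : ℕ}
    (h : (Fin N × V) × Fin d → Fin N × V) (c : Finset V → ℕ) (S : Finset (Fin N × V)) : ℕ :=
  (∑ a, c (slc S a)) + if B ^ 2 * S.card < Fintype.card (Fin N × V) then ecnt h S else 0

/-- the generating function of the potential -/
noncomputable def Zs {X : Type} [Fintype X] [DecidableEq X] (z B : ℝ) (c : Finset X → ℕ) : ℝ :=
  ∑ S : Finset X, z ^ S.card * B ^ (c S)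

end Run7.h264
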