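import Pool.Agent.Run7.h264.Defs

/-!
The averaging argument: a good map `h` exists.
-/

set_option autoImplicit false

namespace Run7.h264

open Finset

lemma avg_pow {X : Type} [Fintype X] [DecidableEq X] {d : ℕ} (hX : 0 < Fintype.card X)
    (A Y : Finset X) (T : ℝ) :
    ∑ h : X × Fin d → X, T ^ (univ.filter (fun p : X × Fin d => p.1 ∈ A ∧ h p ∈ Y)).card
      = (Fintype.card (X × Fin d → X) : ℝ) *
        (1 + (Y.card / Fintype.card X : ℝ) * (T - 1)) ^ (d * A.card) := by
  have hX' : (Fintype.card X : ℝ) ≠ 0 := by positivity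
  have h1 : ∀ h : X × Fin d → X,
      T ^ (univ.filter (fun p : X × Fin d => p.1 ∈ A ∧ h p ∈ Y)).card =
        ∏ p, (if p.1 ∈ A ∧ h p ∈ Y then T else 1) := by
    intro h
    rw [Finset.prod_ite]
    simp
  simp_rw [h1]
  have h2 := Finset.prod_univ_sum (fun _ : X × Fin d => (univ : Finset X))
    (fun p v => if p.1 ∈ A ∧ v ∈ Y then T else 1)
  rw [Fintype.piFinset_univ] at h2
  rw [← h2]
  have h3 : ∀ p : X × Fin d, ∑ v : X, (if p.1 ∈ A ∧ v ∈ Y then T else 1) =
      (Fintype.card X : ℝ) *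
        (if p.1 ∈ A then 1 + (Y.card / Fintype.card X : ℝ) * (T - 1) else 1) := by
    intro p
    by_cases hp : p.1 ∈ A
    · simp only [hp, true_and, if_true]
      have hYc : ((univ.filter (fun v => v ∈ Y)).card : ℝ) = Y.card := by
        congr 1
        congr 1
        ext v; simp
      have hadd := Finset.card_filter_add_card_filter_not (s := (univ : Finset X))
        (fun v => v ∈ Y)
      have hadd' : ((univ.filter (fun v => v ∈ Y)).card : ℝ) +
          ((univ.filter (fun v => ¬ v ∈ Y)).card : ℝ) = Fintype.card X := by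
        rw [← Nat.cast_add, hadd, Finset.card_univ]
      rw [Finset.sum_ite, Finset.sum_const, Finset.sum_const, nsmul_eq_mul, nsmul_eq_mul]
      rw [hYc] at hadd' ⊢
      have : ((univ.filter (fun v => ¬ v ∈ Y)).card : ℝ) = Fintype.card X - Y.card := by
        linarith
      rw [this]
      field_simp
      ring
    · simp [hp]
  simp_rw [h3]
  rw [Finset.prod_mul_distrib, Finset.prod_const, Finset.card_univ, Fintype.card_fun]
  rw [Nat.cast_pow]
  congr 1
  rw [Finset.prod_ite]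
  simp only [prod_const, one_pow, mul_one]
  congr 1
  have : (univ.filter (fun p : X × Fin d => p.1 ∈ A)) = A ×ˢ (univ : Finset (Fin d)) := by
    ext p; simp
  rw [this, Finset.card_product, Finset.card_univ, Fintype.card_fin, mul_comm]

/-- few bad pairs on average -/
lemma avg_bad {X : Type} [Fintype X] [DecidableEq X] {M : ℕ} (hM : 1 ≤ M)
    (hX : 0 < Fintype.card X) :
    ∑ h : X × Fin (4 * M ^ 2) → X,
      ∑ P ∈ (univ : Finset (Finset X × Finset X)).filter
        (fun P => Fintype.card X ≤ M * P.1.card ∧ Fintype.card X ≤ M * P.2.card),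
        (0 : ℝ) ^ (univ.filter (fun p : X × Fin (4 * M ^ 2) => p.1 ∈ P.1 ∧ h p ∈ P.2)).card
      ≤ (Fintype.card (X × Fin (4 * M ^ 2) → X) : ℝ) * (1 / 4) := by
  rw [Finset.sum_comm]
  set n := Fintype.card X with hn
  have hn0 : (0 : ℝ) < n := by exact_mod_cast hX
  have hM0 : (0 : ℝ) < M := by exact_mod_cast hM
  have key : ∀ P ∈ (univ : Finset (Finset X × Finset X)).filter
        (fun P => n ≤ M * P.1.card ∧ n ≤ M * P.2.card),
      ∑ h : X × Fin (4 * M ^ 2) → X, (0 : ℝ) ^ (univ.filter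
        (fun p : X × Fin (4 * M ^ 2) => p.1 ∈ P.1 ∧ h p ∈ P.2)).card ≤
      (Fintype.card (X × Fin (4 * M ^ 2) → X) : ℝ) * Real.exp (-(4 * n)) := by
    intro P hP
    obtain ⟨-, hP1, hP2⟩ := Finset.mem_filter.1 hP
    rw [avg_pow hX]
    apply mul_le_mul_of_nonneg_left _ (by positivity)
    have hx1 : (P.2.card : ℝ) / n ≤ 1 := by
      rw [div_le_one hn0]
      exact_mod_cast Finset.card_le_univ _
    have h1 : 1 + (P.2.card / n : ℝ) * (0 - 1) = 1 - P.2.card / n := by ring
    rw [← hn, h1]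
    calc (1 - P.2.card / n : ℝ) ^ (4 * M ^ 2 * P.1.card)
        ≤ (Real.exp (-(P.2.card / n))) ^ (4 * M ^ 2 * P.1.card) :=
          pow_le_pow_left₀ (by linarith) (Real.one_sub_le_exp_neg _) _
      _ = Real.exp (-(4 * ((M * P.2.card) * (M * P.1.card)) / n)) := by
          rw [← Real.exp_nat_mul]
          congr 1
          push_cast
          ring
      _ ≤ Real.exp (-(4 * n)) := by
          apply Real.exp_le_exp.2
          apply neg_le_neg
          rw [le_div_iff₀ hn0]
          have h2 : (n : ℝ) ≤ M * P.1.card := by exact_mod_cast hP1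
          have h3 : (n : ℝ) ≤ M * P.2.card := by exact_mod_cast hP2
          nlinarith [mul_le_mul h3 h2 hn0.le (by positivity)]
  refine (Finset.sum_le_sum key).trans ?_
  rw [Finset.sum_const, nsmul_eq_mul]
  have hcard : (((univ : Finset (Finset X × Finset X)).filter
        (fun P => n ≤ M * P.1.card ∧ n ≤ M * P.2.card)).card : ℝ) ≤ 4 ^ n := by
    have h1 : ((univ : Finset (Finset X × Finset X)).filter
        (fun P => n ≤ M * P.1.card ∧ n ≤ M * P.2.card)).card ≤ 4 ^ n := by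
      refine (Finset.card_filter_le _ _).trans ?_
      rw [Finset.card_univ, Fintype.card_prod, Fintype.card_finset, ← hn, ← mul_pow]
      norm_num
    exact_mod_cast h1
  have hexp : (4 : ℝ) ^ n * Real.exp (-(4 * n)) ≤ 1 / 4 := by
    have h1 : Real.exp (-(4 * n)) = (Real.exp (-4)) ^ n := by
      rw [← Real.exp_nat_mul]; congr 1; ring
    have h2 : Real.exp (-4) ≤ 1 / 16 := by
      have h3 : (2 : ℝ) ≤ Real.exp 1 := by
        have := Real.add_one_le_exp (1 : ℝ); linarith
      have h4 : Real.exp 4 = (Real.exp 1) ^ 4 := by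
        rw [← Real.exp_nat_mul]; norm_num
      have h5 : (16 : ℝ) ≤ Real.exp 4 := by
        rw [h4]
        calc (16 : ℝ) = 2 ^ 4 := by norm_num
          _ ≤ _ := pow_le_pow_left₀ (by norm_num) h3 4
      rw [Real.exp_neg, one_div]
      exact inv_anti₀ (by norm_num) h5
    rw [h1, ← mul_pow]
    calc (4 * Real.exp (-4)) ^ n ≤ (1 / 4 : ℝ) ^ n :=
          pow_le_pow_left₀ (by positivity) (by linarith) n
      _ ≤ (1 / 4 : ℝ) ^ 1 := pow_le_pow_of_le_one (by norm_num) (by norm_num) hX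
      _ = 1 / 4 := by norm_num
  calc _ ≤ (4 : ℝ) ^ n * ((Fintype.card (X × Fin (4 * M ^ 2) → X) : ℝ) * Real.exp (-(4 * n))) :=
        mul_le_mul_of_nonneg_right hcard (by positivity)
    _ = (Fintype.card (X × Fin (4 * M ^ 2) → X) : ℝ) * ((4 : ℝ) ^ n * Real.exp (-(4 * n))) := by
        ring
    _ ≤ _ := mul_le_mul_of_nonneg_left hexp (by positivity)

/-- the growth factor -/
lemma one_add_inv_pow_le {q d B : ℕ} (hq : 1 ≤ q) (hB : 2 * q * d ≤ B) (hB1 : 1 ≤ B) :
    (1 + 1 / (B : ℝ)) ^ d ≤ 1 + 1 / (q : ℝ) := by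
  have hq0 : (0 : ℝ) < q := by exact_mod_cast hq
  have hB0 : (0 : ℝ) < B := by exact_mod_cast hB1
  have hq1 : (1 : ℝ) ≤ q := by exact_mod_cast hq
  have hBd : (2 : ℝ) * q * d ≤ B := by exact_mod_cast hB
  have h1 : (1 + 1 / (B : ℝ)) ^ d ≤ Real.exp (d / B) := by
    have h2 : 1 + 1 / (B : ℝ) ≤ Real.exp (1 / B) := by
      have := Real.add_one_le_exp (1 / (B : ℝ)); linarith
    calc (1 + 1 / (B : ℝ)) ^ d ≤ (Real.exp (1 / B)) ^ d := pow_le_pow_left₀ (by positivity) h2 d
      _ = _ := by rw [← Real.exp_nat_mul]; congr 1; ring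
  have h2 : (d : ℝ) / B ≤ 1 / (2 * q) := by
    rw [div_le_div_iff₀ hB0 (by positivity)]
    linarith
  have h3 : (0 : ℝ) ≤ 1 / (2 * q) := by positivity
  have h4 : (1 : ℝ) / (2 * q) ≤ 1 / 2 := by
    apply one_div_le_one_div_of_le (by norm_num)
    linarith
  have h5 : Real.exp (1 / (2 * q)) ≤ 1 / (1 - 1 / (2 * q)) :=
    Real.exp_bound_div_one_sub_of_interval h3 (by linarith)
  have h6 : 1 / (1 - 1 / (2 * (q : ℝ))) ≤ 1 + 1 / q := by
    rw [div_le_iff₀ (by linarith)]
    have h7 : (1 : ℝ) / q = 2 * (1 / (2 * q)) := by field_simp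
    rw [h7]
    nlinarith
  calc _ ≤ Real.exp (d / B) := h1
    _ ≤ Real.exp (1 / (2 * q)) := Real.exp_le_exp.2 h2
    _ ≤ _ := h5.trans h6

/-- the generating function on average -/
lemma avg_Z {X : Type} [Fintype X] [DecidableEq X] {q d B : ℕ} (hX : 0 < Fintype.card X)
    (hq : 1 ≤ q) (hB : 2 * q * d ≤ B) (hB1 : 1 ≤ B) (z : ℝ) (hz : 0 < z) (g : Finset X → ℕ) :
    ∑ h : X × Fin d → X, ∑ S ∈ (univ : Finset (Finset X)).filter (fun S => S ≠ ∅),
      z ^ S.card * (B : ℝ) ^ (g S + if B ^ 2 * S.card < Fintype.card X then ecnt h S else 0) ≤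
    (Fintype.card (X × Fin d → X) : ℝ) *
      ∑ S ∈ (univ : Finset (Finset X)).filter (fun S => S ≠ ∅),
        (z * (1 + 1 / q)) ^ S.card * (B : ℝ) ^ (g S) := by
  rw [Finset.sum_comm, Finset.mul_sum]
  apply Finset.sum_le_sum
  intro S _
  have hB0 : (0 : ℝ) < B := by exact_mod_cast hB1
  have hn0 : (0 : ℝ) < Fintype.card X := by exact_mod_cast hX
  have key : ∑ h : X × Fin d → X,
      (B : ℝ) ^ (if B ^ 2 * S.card < Fintype.card X then ecnt h S else 0) ≤
      (Fintype.card (X × Fin d → X) : ℝ) * (1 + 1 / q) ^ S.card := by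
    split_ifs with hlt
    · have h1 := avg_pow (d := d) hX S S (B : ℝ)
      simp only [ecnt]
      rw [h1]
      apply mul_le_mul_of_nonneg_left _ (by positivity)
      have h2 : 1 + (S.card / Fintype.card X : ℝ) * ((B : ℝ) - 1) ≤ 1 + 1 / B := by
        have h3 : (S.card / Fintype.card X : ℝ) ≤ 1 / (B : ℝ) ^ 2 := by
          rw [div_le_div_iff₀ hn0 (by positivity)]
          have : ((B ^ 2 * S.card : ℕ) : ℝ) < (Fintype.card X : ℝ) := by exact_mod_cast hlt
          push_cast at this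
          linarith
        have h4 : (1 : ℝ) ≤ B := by exact_mod_cast hB1
        have h5 : (S.card / Fintype.card X : ℝ) * ((B : ℝ) - 1) ≤ 1 / (B : ℝ) ^ 2 * B := by
          apply mul_le_mul h3 (by linarith) (by linarith) (by positivity)
        have h6 : 1 / (B : ℝ) ^ 2 * B = 1 / B := by field_simp
        linarith
      have h0 : (0 : ℝ) ≤ 1 + (S.card / Fintype.card X : ℝ) * ((B : ℝ) - 1) := by
        have h4 : (1 : ℝ) ≤ B := by exact_mod_cast hB1
        have : (0 : ℝ) ≤ (S.card / Fintype.card X : ℝ) * ((B : ℝ) - 1) :=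
          mul_nonneg (by positivity) (by linarith)
        linarith
      calc _ ≤ (1 + 1 / (B : ℝ)) ^ (d * S.card) := pow_le_pow_left₀ h0 h2 _
        _ = ((1 + 1 / (B : ℝ)) ^ d) ^ S.card := by rw [pow_mul]
        _ ≤ _ := pow_le_pow_left₀ (by positivity) (one_add_inv_pow_le hq hB hB1) _
    · simp only [pow_zero, Finset.sum_const, Finset.card_univ, nsmul_eq_mul]
      apply mul_le_mul_of_nonneg_left _ (by positivity)
      apply one_le_pow₀
      have : (0 : ℝ) ≤ 1 / q := by positivity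
      linarith
  calc ∑ h : X × Fin d → X, z ^ S.card *
        (B : ℝ) ^ (g S + if B ^ 2 * S.card < Fintype.card X then ecnt h S else 0)
      = z ^ S.card * (B : ℝ) ^ (g S) * ∑ h : X × Fin d → X,
        (B : ℝ) ^ (if B ^ 2 * S.card < Fintype.card X then ecnt h S else 0) := by
        rw [Finset.mul_sum]
        apply Finset.sum_congr rfl
        intro h _
        rw [pow_add]
        ring
    _ ≤ z ^ S.card * (B : ℝ) ^ (g S) *
        ((Fintype.card (X × Fin d → X) : ℝ) * (1 + 1 / q) ^ S.card) :=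
        mul_le_mul_of_nonneg_left key (by positivity)
    _ = _ := by rw [mul_pow]; ring

/-- in-degrees on average -/
lemma avg_G {X : Type} [Fintype X] [DecidableEq X] {d : ℕ} (hX : 0 < Fintype.card X)
    (y : ℝ) (hy : 0 < y) :
    ∑ h : X × Fin d → X, ∑ W : Finset X,
      y ^ W.card * (2 : ℝ) ^ (univ.filter (fun p : X × Fin d => h p ∈ W)).card ≤
    (Fintype.card (X × Fin d → X) : ℝ) * Real.exp (Fintype.card X * (y * 3 ^ d)) := by
  rw [Finset.sum_comm]
  set n := Fintype.card X with hn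
  have hn0 : (0 : ℝ) < n := by exact_mod_cast hX
  have key : ∀ W : Finset X, ∑ h : X × Fin d → X,
      y ^ W.card * (2 : ℝ) ^ (univ.filter (fun p : X × Fin d => h p ∈ W)).card ≤
      (Fintype.card (X × Fin d → X) : ℝ) * ((y * 3 ^ d) ^ W.card * 1 ^ (n - W.card)) := by
    intro W
    have h1 := avg_pow (d := d) hX (univ : Finset X) W (2 : ℝ)
    simp only [Finset.mem_univ, true_and] at h1
    rw [← Finset.mul_sum, h1]
    have h2 : (1 + (W.card / Fintype.card X : ℝ) * (2 - 1)) ^ (d * (univ : Finset X).card) ≤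
        (3 ^ d) ^ W.card := by
      rw [Finset.card_univ, ← hn]
      have h3 : 1 + (W.card / n : ℝ) * (2 - 1) ≤ Real.exp (W.card / n) := by
        have := Real.add_one_le_exp (W.card / n : ℝ); linarith
      calc (1 + (W.card / n : ℝ) * (2 - 1)) ^ (d * n) ≤ (Real.exp (W.card / n)) ^ (d * n) :=
            pow_le_pow_left₀ (by positivity) h3 _
        _ = (Real.exp 1) ^ (d * W.card) := by
            rw [← Real.exp_nat_mul, ← Real.exp_nat_mul]
            congr 1
            push_cast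
            field_simp
        _ ≤ 3 ^ (d * W.card) := pow_le_pow_left₀ (by positivity) Real.exp_one_lt_three.le _
        _ = _ := by rw [pow_mul]
    calc _ ≤ y ^ W.card * ((Fintype.card (X × Fin d → X) : ℝ) * (3 ^ d) ^ W.card) := by
          gcongr
      _ = _ := by rw [mul_pow, one_pow]; ring
  refine (Finset.sum_le_sum (fun W _ => key W)).trans ?_
  rw [← Finset.mul_sum]
  apply mul_le_mul_of_nonneg_left _ (by positivity)
  rw [hn, Fintype.sum_pow_mul_eq_add_pow, ← hn]
  calc (y * 3 ^ d + 1) ^ n ≤ (Real.exp (y * 3 ^ d)) ^ n :=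
        pow_le_pow_left₀ (by positivity) (Real.add_one_le_exp _) _
    _ = _ := by rw [← Real.exp_nat_mul]

/-- A good map exists. -/
theorem exists_h {X : Type} [Fintype X] [DecidableEq X] {q M J Λ : ℕ} (hX : 0 < Fintype.card X)
    (hM : 1 ≤ M) (hq : 1 ≤ q) (hΛ : 4 * (J + 1) ≤ Λ) (B : ℕ → ℕ)
    (hB : ∀ j < J, 2 * q * (4 * M ^ 2) ≤ B j) (hB1 : ∀ j < J, 1 ≤ B j) (z : ℕ → ℝ)
    (hz : ∀ j < J, 0 < z j) (g : ℕ → Finset X → ℕ) (y : ℝ) (hy : 0 < y) :
    ∃ h : X × Fin (4 * M ^ 2) → X,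
      (∀ A Y : Finset X, Fintype.card X ≤ M * A.card → Fintype.card X ≤ M * Y.card →
        ∃ x ∈ A, ∃ j, h (x, j) ∈ Y) ∧
      (∀ j < J, ∑ S ∈ (univ : Finset (Finset X)).filter (fun S => S ≠ ∅),
        z j ^ S.card * (B j : ℝ) ^
          (g j S + if B j ^ 2 * S.card < Fintype.card X then ecnt h S else 0) ≤
        Λ * ∑ S ∈ (univ : Finset (Finset X)).filter (fun S => S ≠ ∅),
          (z j * (1 + 1 / q)) ^ S.card * (B j : ℝ) ^ (g j S)) ∧
      (∑ W : Finset X, y ^ W.card *
        (2 : ℝ) ^ (univ.filter (fun p : X × Fin (4 * M ^ 2) => h p ∈ W)).card ≤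
        Λ * Real.exp (Fintype.card X * (y * 3 ^ (4 * M ^ 2)))) := by
  classical
  set d := 4 * M ^ 2 with hd
  let Ω := X × Fin d → X
  let Fb : Ω → ℝ := fun h => ∑ P ∈ (univ : Finset (Finset X × Finset X)).filter
        (fun P => Fintype.card X ≤ M * P.1.card ∧ Fintype.card X ≤ M * P.2.card),
        (0 : ℝ) ^ (univ.filter (fun p : X × Fin d => p.1 ∈ P.1 ∧ h p ∈ P.2)).card
  let Fz : ℕ → Ω → ℝ := fun j h => ∑ S ∈ (univ : Finset (Finset X)).filter (fun S => S ≠ ∅),
        z j ^ S.card * (B j : ℝ) ^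
          (g j S + if B j ^ 2 * S.card < Fintype.card X then ecnt h S else 0)
  let e : ℕ → ℝ := fun j => ∑ S ∈ (univ : Finset (Finset X)).filter (fun S => S ≠ ∅),
          (z j * (1 + 1 / q)) ^ S.card * (B j : ℝ) ^ (g j S)
  let Fg : Ω → ℝ := fun h => ∑ W : Finset X, y ^ W.card *
        (2 : ℝ) ^ (univ.filter (fun p : X × Fin d => h p ∈ W)).card
  set eg : ℝ := Real.exp (Fintype.card X * (y * 3 ^ d)) with heg
  have heg0 : 0 < eg := Real.exp_pos _
  have hΛ0 : (0 : ℝ) < Λ := by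
    have : 0 < Λ := by omega
    exact_mod_cast this
  have hq0 : (0 : ℝ) < q := by exact_mod_cast hq
  have hne : ((univ : Finset (Finset X)).filter (fun S => S ≠ ∅)).Nonempty := by
    obtain ⟨x⟩ := Fintype.card_pos_iff.1 hX
    exact ⟨{x}, by simp⟩
  have he0 : ∀ j < J, 0 < e j := by
    intro j hj
    apply Finset.sum_pos _ hne
    intro S _
    have h1 : (0 : ℝ) < B j := by exact_mod_cast hB1 j hj
    have h2 := hz j hj
    positivity
  have hFb : ∑ h : Ω, Fb h ≤ (Fintype.card Ω : ℝ) * (1 / 4) := avg_bad hM hX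
  have hFz : ∀ j < J, ∑ h : Ω, Fz j h ≤ (Fintype.card Ω : ℝ) * e j := fun j hj =>
    avg_Z hX hq (hB j hj) (hB1 j hj) (z j) (hz j hj) (g j)
  have hFg : ∑ h : Ω, Fg h ≤ (Fintype.card Ω : ℝ) * eg := avg_G hX y hy
  have hFb0 : ∀ h, 0 ≤ Fb h := fun h => Finset.sum_nonneg (fun P _ => by positivity)
  have hFz0 : ∀ j < J, ∀ h, 0 ≤ Fz j h := fun j hj h => Finset.sum_nonneg (fun S _ => by
    have h2 := hz j hj
    positivity)
  have hFg0 : ∀ h, 0 ≤ Fg h := fun h => Finset.sum_nonneg (fun W _ => by positivity)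
  have hΩ : (0 : ℝ) < Fintype.card Ω := by
    have : Nonempty Ω := by
      obtain ⟨x⟩ := Fintype.card_pos_iff.1 hX
      exact ⟨fun _ => x⟩
    have := Fintype.card_pos (α := Ω)
    exact_mod_cast this
  let Φ : Ω → ℝ := fun h => Fb h + ∑ j ∈ range J, Fz j h / (Λ * e j) + Fg h / (Λ * eg)
  have hΦ : ∑ h : Ω, Φ h ≤ (Fintype.card Ω : ℝ) * (1 / 2) := by
    have hc : ∑ h : Ω, ∑ j ∈ range J, Fz j h / (Λ * e j) =
        ∑ j ∈ range J, ∑ h : Ω, Fz j h / (Λ * e j) := Finset.sum_comm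
    have hs : ∑ h : Ω, Φ h = ∑ h : Ω, Fb h + ∑ h : Ω, ∑ j ∈ range J, Fz j h / (Λ * e j) +
        ∑ h : Ω, Fg h / (Λ * eg) := by
      rw [← Finset.sum_add_distrib, ← Finset.sum_add_distrib]
    rw [hs, hc]
    have h1 : ∑ j ∈ range J, ∑ h : Ω, Fz j h / (Λ * e j) ≤
        ∑ _j ∈ range J, (Fintype.card Ω : ℝ) * (1 / Λ) := by
      apply Finset.sum_le_sum
      intro j hj
      have hj' := Finset.mem_range.1 hj
      have := he0 j hj'
      rw [← Finset.sum_div, div_le_iff₀ (by positivity)]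
      calc _ ≤ (Fintype.card Ω : ℝ) * e j := hFz j hj'
        _ = _ := by field_simp
    have h2 : ∑ h : Ω, Fg h / (Λ * eg) ≤ (Fintype.card Ω : ℝ) * (1 / Λ) := by
      rw [← Finset.sum_div, div_le_iff₀ (by positivity)]
      calc _ ≤ (Fintype.card Ω : ℝ) * eg := hFg
        _ = _ := by field_simp
    rw [Finset.sum_const, Finset.card_range, nsmul_eq_mul] at h1
    have h3 : ((J : ℝ) + 1) * (1 / Λ) ≤ 1 / 4 := by
      rw [mul_one_div, div_le_div_iff₀ hΛ0 (by norm_num)]
      have : ((4 * (J + 1) : ℕ) : ℝ) ≤ Λ := by exact_mod_cast hΛ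
      push_cast at this
      linarith
    have h4 : (Fintype.card Ω : ℝ) * (((J : ℝ) + 1) * (1 / Λ)) ≤ (Fintype.card Ω : ℝ) * (1 / 4) :=
      mul_le_mul_of_nonneg_left h3 hΩ.le
    linarith
  have hex : ∃ h ∈ (univ : Finset Ω), Φ h ≤ 1 / 2 := by
    apply Finset.exists_le_of_sum_le
    · obtain ⟨x⟩ := Fintype.card_pos_iff.1 hX
      exact ⟨fun _ => x, Finset.mem_univ _⟩
    · rw [Finset.sum_const, Finset.card_univ, nsmul_eq_mul]
      exact hΦ
  obtain ⟨h, -, hh⟩ := hex
  have hz' : ∀ j ∈ range J, 0 ≤ Fz j h / (Λ * e j) := by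
    intro j hj
    have hj' := Finset.mem_range.1 hj
    exact div_nonneg (hFz0 j hj' h) (mul_pos hΛ0 (he0 j hj')).le
  have hsum0 : 0 ≤ ∑ j ∈ range J, Fz j h / (Λ * e j) := Finset.sum_nonneg hz'
  have hg0 : 0 ≤ Fg h / (Λ * eg) := div_nonneg (hFg0 h) (by positivity)
  simp only [Φ] at hh
  refine ⟨h, ?_, ?_, ?_⟩
  · intro A Y hA hY
    by_contra hcon
    push Not at hcon
    have h1 : (1 : ℝ) ≤ Fb h := by
      have hmem : (A, Y) ∈ (univ : Finset (Finset X × Finset X)).filter
        (fun P => Fintype.card X ≤ M * P.1.card ∧ Fintype.card X ≤ M * P.2.card) := by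
        simp only [Finset.mem_filter, Finset.mem_univ, true_and]
        exact ⟨hA, hY⟩
      have h2 := Finset.single_le_sum (f := fun P : Finset X × Finset X => (0 : ℝ) ^
        (univ.filter (fun p : X × Fin d => p.1 ∈ P.1 ∧ h p ∈ P.2)).card)
        (fun P _ => by positivity) hmem
      have h3 : (univ.filter (fun p : X × Fin d => p.1 ∈ A ∧ h p ∈ Y)).card = 0 := by
        rw [Finset.card_eq_zero, Finset.filter_eq_empty_iff]
        rintro ⟨x, j⟩ _ ⟨hx, hy⟩
        exact hcon x hx j hy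
      simp only [h3, pow_zero] at h2
      exact h2
    linarith
  · intro j hj
    have h1 := Finset.single_le_sum hz' (Finset.mem_range.2 hj)
    have h2 : Fz j h / (Λ * e j) ≤ 1 := by
      have := hFb0 h
      linarith
    rw [div_le_one (mul_pos hΛ0 (he0 j hj))] at h2
    exact h2
  · have h2 : Fg h / (Λ * eg) ≤ 1 := by
      have := hFb0 h
      linarith
    rw [div_le_one (by positivity)] at h2
    exact h2

end Run7.h264
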