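import Mathlib

/-!
Growth of polynomials against powers of two.
-/

set_option autoImplicit false

namespace Run7.h264

open Filter Topology

lemma eval_le (p : Polynomial ℕ) (x : ℕ) (hx : 1 ≤ x) :
    p.eval x ≤ (∑ i ∈ Finset.range (p.natDegree + 1), p.coeff i) * x ^ p.natDegree := by
  rw [Polynomial.eval_eq_sum_range, Finset.sum_mul]
  apply Finset.sum_le_sum
  intro i hi
  apply Nat.mul_le_mul_left
  apply Nat.pow_le_pow_right hx
  have := Finset.mem_range.1 hi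
  omega

lemma exists_pow_le (C D : ℕ) : ∃ t : ℕ, 1 ≤ t ∧ C * t ^ D ≤ 2 ^ t := by
  have h := tendsto_pow_const_div_const_pow_of_one_lt D (by norm_num : (1 : ℝ) < 2)
  have hC : (0 : ℝ) < 1 / ((C : ℝ) + 1) := by positivity
  have h1 := h.eventually (gt_mem_nhds hC)
  obtain ⟨t, ht, ht1⟩ := (h1.and (eventually_ge_atTop 1)).exists
  refine ⟨t, ht1, ?_⟩
  have h2 : (0 : ℝ) < 2 ^ t := by positivity
  rw [div_lt_div_iff₀ h2 (by positivity)] at ht
  have h3 : (C : ℝ) * (t : ℝ) ^ D ≤ 2 ^ t := by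
    have h4 : (0 : ℝ) ≤ (t : ℝ) ^ D := by positivity
    nlinarith
  exact_mod_cast h3

lemma exists_t (p : Polynomial ℕ) : ∃ t : ℕ, 2 * p.eval (624 * t + 1155) ≤ 2 ^ t + 1 := by
  obtain ⟨t, ht1, ht⟩ := exists_pow_le
    (2 * (∑ i ∈ Finset.range (p.natDegree + 1), p.coeff i) * 1779 ^ p.natDegree) p.natDegree
  refine ⟨t, ?_⟩
  have h1 := eval_le p (624 * t + 1155) (by omega)
  have h2 : (624 * t + 1155) ^ p.natDegree ≤ (1779 * t) ^ p.natDegree :=
    Nat.pow_le_pow_left (by omega) _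
  calc 2 * p.eval (624 * t + 1155)
      ≤ 2 * ((∑ i ∈ Finset.range (p.natDegree + 1), p.coeff i) * (1779 * t) ^ p.natDegree) :=
        Nat.mul_le_mul_left _ (h1.trans (Nat.mul_le_mul_left _ h2))
    _ = 2 * (∑ i ∈ Finset.range (p.natDegree + 1), p.coeff i) * 1779 ^ p.natDegree *
          t ^ p.natDegree := by rw [mul_pow]; ring
    _ ≤ 2 ^ t := ht
    _ ≤ _ := Nat.le_succ _

lemma exists_t_lin (N : ℕ) : ∃ t : ℕ, 2 * (N * (624 * t + 1155)) ≤ 2 ^ t + 1 := by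
  obtain ⟨t, ht1, ht⟩ := exists_pow_le (2 * N * 1779) 1
  refine ⟨t, ?_⟩
  calc 2 * (N * (624 * t + 1155)) ≤ 2 * (N * (1779 * t)) := by
        apply Nat.mul_le_mul_left
        apply Nat.mul_le_mul_left
        omega
    _ = 2 * N * 1779 * t ^ 1 := by ring
    _ ≤ 2 ^ t := ht
    _ ≤ _ := Nat.le_succ _

end Run7.h264
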