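import Pool.Agent.Run7.h264.Defs

/-!
From the generating function of the in-degrees to a bound for small sets.
-/

set_option autoImplicit false

namespace Run7.h264

open Finset

lemma in_bound {X : Type} [Fintype X] [DecidableEq X] {q d b l : ℕ} (h : X × Fin d → X)
    (hG : ∑ W : Finset X, (1 / ((2 : ℝ) ^ (4 * b) * 3 ^ d)) ^ W.card *
        (2 : ℝ) ^ (univ.filter (fun p : X × Fin d => h p ∈ W)).card ≤
        ((2 ^ l : ℕ) : ℝ) *
          Real.exp (Fintype.card X * (1 / ((2 : ℝ) ^ (4 * b) * 3 ^ d) * 3 ^ d)))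
    (hA1 : 2 * q * (6 * d + 8 * b + 2) ≤ 2 ^ (2 * b))
    (hA2 : 2 * q * l * 2 ^ (2 * b) ≤ Fintype.card X)
    (W : Finset X) (hW : 2 ^ (4 * b) * W.card ≤ 2 * Fintype.card X) :
    q * (2 ^ b) ^ 2 * (univ.filter (fun p : X × Fin d => p.1 ∈ W ∨ h p ∈ W)).card ≤
      Fintype.card X := by
  set n := Fintype.card X with hn
  set t := (univ.filter (fun p : X × Fin d => h p ∈ W)).card with ht
  set w := W.card with hw
  set E := 2 ^ (4 * b) with hE
  have hE0 : 0 < E := by positivity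
  have hE0' : (0 : ℝ) < (2 : ℝ) ^ (4 * b) := by positivity
  -- the single term
  have h1 : (1 / ((2 : ℝ) ^ (4 * b) * 3 ^ d)) ^ w * (2 : ℝ) ^ t ≤
      ((2 ^ l : ℕ) : ℝ) * Real.exp (n * (1 / ((2 : ℝ) ^ (4 * b) * 3 ^ d) * 3 ^ d)) := by
    refine le_trans ?_ hG
    exact Finset.single_le_sum (f := fun W : Finset X =>
      (1 / ((2 : ℝ) ^ (4 * b) * 3 ^ d)) ^ W.card *
        (2 : ℝ) ^ (univ.filter (fun p : X × Fin d => h p ∈ W)).card)
      (fun W _ => by positivity) (Finset.mem_univ W)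
  have h2 : (n : ℝ) * (1 / ((2 : ℝ) ^ (4 * b) * 3 ^ d) * 3 ^ d) = n / (2 : ℝ) ^ (4 * b) := by
    field_simp
  rw [h2] at h1
  have h3 : (2 : ℝ) ^ t ≤ ((2 : ℝ) ^ (4 * b) * 3 ^ d) ^ w *
      (((2 ^ l : ℕ) : ℝ) * Real.exp (n / (2 : ℝ) ^ (4 * b))) := by
    rw [one_div, inv_pow, inv_mul_le_iff₀ (by positivity)] at h1
    exact h1
  have h4 : ((2 : ℝ) ^ t) ^ E ≤ (((2 : ℝ) ^ (4 * b) * 3 ^ d) ^ w *
      (((2 ^ l : ℕ) : ℝ) * Real.exp (n / (2 : ℝ) ^ (4 * b)))) ^ E :=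
    pow_le_pow_left₀ (by positivity) h3 E
  have hexp : (Real.exp (n / (2 : ℝ) ^ (4 * b))) ^ E ≤ (2 : ℝ) ^ (2 * n) := by
    rw [← Real.exp_nat_mul]
    have : ((E : ℕ) : ℝ) * (n / (2 : ℝ) ^ (4 * b)) = n * 1 := by
      rw [hE]; push_cast; field_simp
    rw [this, Real.exp_nat_mul, pow_mul]
    apply pow_le_pow_left₀ (Real.exp_pos _).le
    exact Real.exp_one_lt_three.le.trans (by norm_num)
  have hbase : ((2 : ℝ) ^ (4 * b) * 3 ^ d) ≤ (2 : ℝ) ^ (4 * b + 2 * d) := by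
    rw [pow_add, pow_mul 2 2 d]
    apply mul_le_mul_of_nonneg_left _ (by positivity)
    exact pow_le_pow_left₀ (by norm_num) (by norm_num) d
  have h5 : (2 : ℝ) ^ (t * E) ≤ (2 : ℝ) ^ ((4 * b + 2 * d) * (w * E) + l * E + 2 * n) := by
    calc (2 : ℝ) ^ (t * E) = ((2 : ℝ) ^ t) ^ E := by rw [pow_mul]
      _ ≤ _ := h4
      _ = (((2 : ℝ) ^ (4 * b) * 3 ^ d)) ^ (w * E) * (((2 ^ l : ℕ) : ℝ) ^ E *
          (Real.exp (n / (2 : ℝ) ^ (4 * b))) ^ E) := by
          rw [mul_pow (((2 : ℝ) ^ (4 * b) * 3 ^ d) ^ w) _ E, mul_pow ((2 ^ l : ℕ) : ℝ) _ E,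
            ← pow_mul ((2 : ℝ) ^ (4 * b) * 3 ^ d) w E]
      _ ≤ ((2 : ℝ) ^ (4 * b + 2 * d)) ^ (w * E) * (((2 ^ l : ℕ) : ℝ) ^ E * (2 : ℝ) ^ (2 * n)) := by
          apply mul_le_mul
          · exact pow_le_pow_left₀ (by positivity) hbase _
          · exact mul_le_mul_of_nonneg_left hexp (by positivity)
          · positivity
          · positivity
      _ = _ := by
          rw [← pow_mul, pow_add, pow_add]
          push_cast
          rw [← pow_mul (2 : ℝ) l E]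
          ring
  have h6 : t * E ≤ (4 * b + 2 * d) * (w * E) + l * E + 2 * n :=
    (pow_le_pow_iff_right₀ (by norm_num : (1 : ℝ) < 2)).1 h5
  have h7 : w * E ≤ 2 * n := by rw [mul_comm]; exact hW
  have h8 : (univ.filter (fun p : X × Fin d => p.1 ∈ W ∨ h p ∈ W)).card ≤ d * w + t := by
    have hsub : (univ.filter (fun p : X × Fin d => p.1 ∈ W ∨ h p ∈ W)) ⊆
        (W ×ˢ (univ : Finset (Fin d))) ∪ (univ.filter (fun p : X × Fin d => h p ∈ W)) := by
      intro p hp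
      simp only [Finset.mem_filter, Finset.mem_univ, true_and, Finset.mem_union,
        Finset.mem_product, and_true] at hp ⊢
      exact hp
    refine (Finset.card_le_card hsub).trans ((Finset.card_union_le _ _).trans ?_)
    rw [Finset.card_product, Finset.card_univ, Fintype.card_fin, mul_comm, hw, ht]
  have h9 : (d * w + t) * E ≤ (6 * d + 8 * b + 2) * n + l * E := by
    calc (d * w + t) * E = d * (w * E) + t * E := by ring
      _ ≤ d * (2 * n) + ((4 * b + 2 * d) * (2 * n) + l * E + 2 * n) := by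
          refine Nat.add_le_add (Nat.mul_le_mul_left _ h7) (h6.trans ?_)
          have := Nat.mul_le_mul_left (4 * b + 2 * d) h7
          omega
      _ = _ := by ring
  have hEsq : E = 2 ^ (2 * b) * 2 ^ (2 * b) := by
    rw [hE, ← pow_add]; congr 1; ring
  have hbsq : ((2 : ℕ) ^ b) ^ 2 = 2 ^ (2 * b) := by rw [← pow_mul]; congr 1; ring
  rw [hbsq]
  have h10 : 2 * E * (q * 2 ^ (2 * b) * (d * w + t)) ≤ 2 * E * n := by
    calc 2 * E * (q * 2 ^ (2 * b) * (d * w + t))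
        = 2 * q * 2 ^ (2 * b) * ((d * w + t) * E) := by ring
      _ ≤ 2 * q * 2 ^ (2 * b) * ((6 * d + 8 * b + 2) * n + l * E) := Nat.mul_le_mul_left _ h9
      _ = 2 ^ (2 * b) * (2 * q * (6 * d + 8 * b + 2)) * n + (2 * q * l * 2 ^ (2 * b)) * E := by ring
      _ ≤ 2 ^ (2 * b) * 2 ^ (2 * b) * n + n * E := by
          refine Nat.add_le_add ?_ ?_
          · exact Nat.mul_le_mul_right _ (Nat.mul_le_mul_left _ hA1)
          · exact Nat.mul_le_mul_right _ hA2
      _ = 2 * E * n := by rw [← hEsq]; ring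
  have h11 := Nat.le_of_mul_le_mul_left h10 (by positivity)
  exact (Nat.mul_le_mul_left _ h8).trans h11

end Run7.h264
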