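import Pool.Agent.Run7.h264.Defs

/-!
Random patterns: existence of a pattern with few failures.
-/

set_option autoImplicit false

namespace Run7.h264

lemma sum_weight (C D : Finset ℕ) (hDC : D ⊆ C) (s : Bool) :
    ∑ T ∈ C.powerset, 2 ^ (D.filter (fun c => decide (c ∈ T) ≠ s)).card =
      3 ^ D.card * 2 ^ (C.card - D.card) := by
  have hprod := Finset.prod_add (fun c => if c ∈ D ∧ s = false then 2 else 1)
    (fun c => if c ∈ D ∧ s = true then 2 else 1) C
  have hl : (∏ c ∈ C, ((if c ∈ D ∧ s = false then 2 else 1) +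
      (if c ∈ D ∧ s = true then 2 else 1))) = 3 ^ D.card * 2 ^ (C.card - D.card) := by
    have : ∀ c ∈ C, ((if c ∈ D ∧ s = false then 2 else 1) +
      (if c ∈ D ∧ s = true then 2 else 1)) = if c ∈ D then 3 else 2 := by
      intro c _
      cases s <;> by_cases hc : c ∈ D <;> simp [hc]
    rw [Finset.prod_congr rfl this, Finset.prod_ite, Finset.prod_const, Finset.prod_const]
    have h1 : C.filter (fun c => c ∈ D) = D := by
      ext c; simp only [Finset.mem_filter]; exact ⟨fun h => h.2, fun h => ⟨hDC h, h⟩⟩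
    have h2 : C.filter (fun c => c ∉ D) = C \ D := by
      ext c; simp
    rw [h1, h2, Finset.card_sdiff_of_subset hDC]
  rw [← hl, hprod]
  apply Finset.sum_congr rfl
  intro T hT
  rw [Finset.mem_powerset] at hT
  cases s
  · have h1 : (D.filter (fun c => decide (c ∈ T) ≠ false)) = T.filter (fun c => c ∈ D) := by
      ext c
      simp only [Finset.mem_filter, ne_eq, decide_eq_false_iff_not, not_not]
      tauto
    rw [h1]
    simp [Finset.filter_mem_eq_inter]
  · have h1 : (D.filter (fun c => decide (c ∈ T) ≠ true)) = (C \ T).filter (fun c => c ∈ D) := by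
      ext c
      simp only [Finset.mem_filter, ne_eq, decide_eq_true_eq, Finset.mem_sdiff]
      constructor
      · rintro ⟨ha, hb⟩; exact ⟨⟨hDC ha, hb⟩, ha⟩
      · rintro ⟨⟨_, hb⟩, ha⟩; exact ⟨ha, hb⟩
    rw [h1]
    simp [Finset.filter_mem_eq_inter]

lemma count_pattern (C D : Finset ℕ) (hDC : D ⊆ C) (s : Bool) (m : ℕ) :
    (C.powerset.filter (fun T => (D.filter (fun c => decide (c ∈ T) = s)).card < m)).card *
      4 ^ D.card ≤ 2 ^ m * 3 ^ D.card * 2 ^ C.card := by
  have h1 : (C.powerset.filter (fun T => (D.filter (fun c => decide (c ∈ T) = s)).card < m)).card *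
      2 ^ D.card ≤ 2 ^ m * (3 ^ D.card * 2 ^ (C.card - D.card)) := by
    rw [← sum_weight C D hDC s, Finset.mul_sum, ← smul_eq_mul, ← Finset.sum_const]
    refine le_trans (Finset.sum_le_sum ?_) (Finset.sum_le_sum_of_subset (Finset.filter_subset _ _))
    intro T hT
    have hlt := (Finset.mem_filter.1 hT).2
    have hadd := Finset.card_filter_add_card_filter_not (s := D) (fun c => decide (c ∈ T) = s)
    rw [← pow_add]
    apply Nat.pow_le_pow_right (by norm_num)
    have : (D.filter (fun c => decide (c ∈ T) ≠ s)).card =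
      (D.filter (fun c => ¬ decide (c ∈ T) = s)).card := rfl
    omega
  have hle := Finset.card_le_card hDC
  calc (C.powerset.filter (fun T => (D.filter (fun c => decide (c ∈ T) = s)).card < m)).card *
      4 ^ D.card = ((C.powerset.filter (fun T => (D.filter (fun c => decide (c ∈ T) = s)).card
        < m)).card * 2 ^ D.card) * 2 ^ D.card := by
          have : (4 : ℕ) ^ D.card = 2 ^ D.card * 2 ^ D.card := by
            rw [← mul_pow]; norm_num
          rw [this]; ring
    _ ≤ (2 ^ m * (3 ^ D.card * 2 ^ (C.card - D.card))) * 2 ^ D.card := Nat.mul_le_mul_right _ h1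
    _ = 2 ^ m * 3 ^ D.card * (2 ^ (C.card - D.card) * 2 ^ D.card) := by ring
    _ = _ := by rw [← pow_add, Nat.sub_add_cancel hle]

lemma count_pattern' (C D : Finset ℕ) (hDC : D ⊆ C) (s : Bool) (m κ A : ℕ) (hκ : κ ≤ D.card)
    (hA : A * 2 ^ m * 3 ^ κ ≤ 4 ^ κ) :
    A * (C.powerset.filter (fun T => (D.filter (fun c => decide (c ∈ T) = s)).card < m)).card
      ≤ 2 ^ C.card := by
  have h1 := count_pattern C D hDC s m
  have h2 : A * 2 ^ m * 3 ^ D.card ≤ 4 ^ D.card := by
    obtain ⟨e, he⟩ := Nat.exists_eq_add_of_le hκ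
    rw [he, pow_add, pow_add, ← mul_assoc]
    exact Nat.mul_le_mul hA (Nat.pow_le_pow_left (by norm_num) _)
  have h3 : (A * (C.powerset.filter (fun T => (D.filter (fun c => decide (c ∈ T) = s)).card
      < m)).card) * 4 ^ D.card ≤ 2 ^ C.card * 4 ^ D.card := by
    calc _ = A * ((C.powerset.filter (fun T => (D.filter (fun c => decide (c ∈ T) = s)).card
      < m)).card * 4 ^ D.card) := by ring
      _ ≤ A * (2 ^ m * 3 ^ D.card * 2 ^ C.card) := Nat.mul_le_mul_left _ h1
      _ = (A * 2 ^ m * 3 ^ D.card) * 2 ^ C.card := by ring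
      _ ≤ 4 ^ D.card * 2 ^ C.card := Nat.mul_le_mul_right _ h2
      _ = _ := by ring
  exact Nat.le_of_mul_le_mul_right h3 (by positivity)

/-- existence of a good pattern -/
lemma exists_pattern {V : Type} [Fintype V] {k κ m E : ℕ}
    (h1 : 4 * E * 2 ^ m * 3 ^ κ ≤ 4 ^ κ) (h0 : 4 * E ^ 2 * 2 ^ κ * 3 ^ k ≤ 4 ^ k)
    (side : V → Bool) (L : V → Finset ℕ) (hL : ∀ v, k ≤ (L v).card) (π : ℕ → Bool) :
    ∃ ρ : ℕ → Bool,
      2 * E * (Finset.univ.filter (fun v => κ ≤ (Us L side π v).card ∧
        (Us L side π v ∩ Us L side ρ v).card < m)).card ≤ Fintype.card V ∧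
      2 * E ^ 2 * failc κ L side ρ ≤ Fintype.card V := by
  classical
  set C : Finset ℕ := Finset.univ.biUnion L with hC
  have hLC : ∀ v, L v ⊆ C := fun v => Finset.subset_biUnion_of_mem L (Finset.mem_univ v)
  let ρ : Finset ℕ → ℕ → Bool := fun T c => decide (c ∈ T)
  have hsum : ∑ T ∈ C.powerset, (4 * E * (Finset.univ.filter (fun v => κ ≤ (Us L side π v).card ∧
        (Us L side π v ∩ Us L side (ρ T) v).card < m)).card +
      4 * E ^ 2 * failc κ L side (ρ T)) ≤ ∑ T ∈ C.powerset, 2 * Fintype.card V := by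
    rw [Finset.sum_add_distrib, ← Finset.mul_sum, ← Finset.mul_sum]
    have e1 : ∑ T ∈ C.powerset, (Finset.univ.filter (fun v => κ ≤ (Us L side π v).card ∧
        (Us L side π v ∩ Us L side (ρ T) v).card < m)).card =
        ∑ v : V, (C.powerset.filter (fun T => κ ≤ (Us L side π v).card ∧
        (Us L side π v ∩ Us L side (ρ T) v).card < m)).card := by
      simp only [Finset.card_filter]
      rw [Finset.sum_comm]
    have e2 : ∑ T ∈ C.powerset, failc κ L side (ρ T) =
        ∑ v : V, (C.powerset.filter (fun T => (Us L side (ρ T) v).card < κ)).card := by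
      simp only [failc, Finset.card_filter]
      rw [Finset.sum_comm]
    rw [e1, e2, Finset.mul_sum, Finset.mul_sum]
    have f1 : ∀ v : V, 4 * E * (C.powerset.filter (fun T => κ ≤ (Us L side π v).card ∧
        (Us L side π v ∩ Us L side (ρ T) v).card < m)).card ≤ 2 ^ C.card := by
      intro v
      by_cases hv : κ ≤ (Us L side π v).card
      · refine le_trans (Nat.mul_le_mul_left _ (Finset.card_le_card ?_))
          (count_pattern' C (Us L side π v) ((Finset.filter_subset _ _).trans (hLC v)) (side v) m κ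
            (4 * E) hv h1)
        intro T hT
        rw [Finset.mem_filter] at hT ⊢
        refine ⟨hT.1, lt_of_le_of_lt (Finset.card_le_card ?_) hT.2.2⟩
        intro c hc
        rw [Finset.mem_filter] at hc
        rw [Finset.mem_inter]
        refine ⟨hc.1, Finset.mem_filter.2 ⟨(Finset.mem_filter.1 hc.1).1, hc.2⟩⟩
      · have : (C.powerset.filter (fun T => κ ≤ (Us L side π v).card ∧
          (Us L side π v ∩ Us L side (ρ T) v).card < m)).card = 0 := by
          rw [Finset.card_eq_zero, Finset.filter_eq_empty_iff]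
          intro T _ hT
          exact hv hT.1
        rw [this]
        simp
    have f2 : ∀ v : V, 4 * E ^ 2 * (C.powerset.filter (fun T => (Us L side (ρ T) v).card
        < κ)).card ≤ 2 ^ C.card := by
      intro v
      exact count_pattern' C (L v) (hLC v) (side v) κ k (4 * E ^ 2) (hL v) h0
    calc _ ≤ ∑ _v : V, 2 ^ C.card + ∑ _v : V, 2 ^ C.card :=
          Nat.add_le_add (Finset.sum_le_sum (fun v _ => f1 v)) (Finset.sum_le_sum (fun v _ => f2 v))
      _ = _ := by
          simp only [Finset.sum_const, Finset.card_univ, Finset.card_powerset, smul_eq_mul]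
          ring
  obtain ⟨T, -, hT⟩ := Finset.exists_le_of_sum_le (⟨∅, by simp⟩ : (C.powerset).Nonempty) hsum
  refine ⟨ρ T, ?_, ?_⟩
  · have h2 : 2 * (2 * E * (Finset.univ.filter (fun v => κ ≤ (Us L side π v).card ∧
        (Us L side π v ∩ Us L side (ρ T) v).card < m)).card) ≤ 2 * Fintype.card V := by
      refine le_trans ?_ hT
      refine le_trans (le_of_eq (by ring)) (Nat.le_add_right _ _)
    exact Nat.le_of_mul_le_mul_left h2 (by norm_num)
  · have h2 : 2 * (2 * E ^ 2 * failc κ L side (ρ T)) ≤ 2 * Fintype.card V := by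
      refine le_trans ?_ hT
      refine le_trans (le_of_eq (by ring)) (Nat.le_add_left _ _)
    exact Nat.le_of_mul_le_mul_left h2 (by norm_num)

end Run7.h264
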