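import Pool.Agent.Run7.h264.Defs

/-!
The off-line side: from lists of size `k` one can choose sublists with few conflicts.
-/

set_option autoImplicit false

namespace Run7.h264

lemma conf_bot {V : Type} [DecidableEq V] (O : V → Finset ℕ) (S : Finset V) :
    conf (⊥ : SimpleGraph V) O S = 0 := by
  classical
  unfold conf
  apply Finset.card_eq_zero.2
  ext p
  simp

open Classical in
/-- base level -/
lemma off_zero {q k κ m E : ℕ} (hE : 3 ≤ E) (hm : m ≤ κ) (c : Finset Bool → ℕ) :
    OffP q 0 k κ m E (fun b : Bool => b) (⊥ : SimpleGraph Bool) c := by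
  intro L hL π' π hfail
  have hf0 : failc κ L (fun b : Bool => b) π = 0 := by
    by_contra hne
    have h1 : 1 ≤ failc κ L (fun b : Bool => b) π := Nat.one_le_iff_ne_zero.2 hne
    simp only [Fintype.card_bool] at hfail
    nlinarith
  have hall : ∀ v, κ ≤ (Us L (fun b : Bool => b) π v).card := by
    intro v
    by_contra hlt
    rw [failc, Finset.card_eq_zero, Finset.filter_eq_empty_iff] at hf0
    exact hf0 (Finset.mem_univ v) (not_le.1 hlt)
  refine ⟨fun v => if m ≤ (Us L (fun b : Bool => b) π' v ∩ Us L (fun b : Bool => b) π v).card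
    then Us L (fun b : Bool => b) π' v ∩ Us L (fun b : Bool => b) π v
    else Us L (fun b : Bool => b) π v, ?_, ?_, ?_, ?_, ?_⟩
  · intro v
    dsimp only
    split_ifs
    · exact Finset.inter_subset_right.trans (Finset.filter_subset _ _)
    · exact Finset.filter_subset _ _
  · intro v
    dsimp only
    split_ifs with h1
    · exact h1
    · exact hm.trans (hall v)
  · have : esc L (fun v => if m ≤ (Us L (fun b : Bool => b) π' v ∩
        Us L (fun b : Bool => b) π v).card
        then Us L (fun b : Bool => b) π' v ∩ Us L (fun b : Bool => b) π v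
        else Us L (fun b : Bool => b) π v) (fun b : Bool => b) π = 0 := by
      rw [esc, Finset.card_eq_zero, Finset.filter_eq_empty_iff]
      intro v _
      rw [not_not]
      split_ifs
      · exact Finset.inter_subset_right
      · exact Finset.Subset.refl _
    rw [this]
    simp
  · refine le_trans ?_ (Nat.le_add_right _ _)
    rw [esc, pbad]
    apply Finset.card_le_card
    intro v hv
    simp only [Finset.mem_filter, Finset.mem_univ, true_and] at hv ⊢
    by_contra hlt
    rw [if_pos (not_lt.1 hlt)] at hv
    exact hv Finset.inter_subset_left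
  · intro S
    rw [conf_bot]
    simp

/-- counting a filtered product -/
lemma card_filter_prod {N : ℕ} {V : Type} [Fintype V] (p : Fin N × V → Prop)
    [DecidablePred p] : (Finset.univ.filter p).card =
      ∑ a : Fin N, (Finset.univ.filter (fun v : V => p (a, v))).card := by
  rw [Finset.card_filter, Fintype.sum_prod_type]
  apply Finset.sum_congr rfl
  intro a _
  rw [Finset.card_filter]

lemma sum_card_slc {N : ℕ} {V : Type} [Fintype V] [DecidableEq V] (S : Finset (Fin N × V)) :
    ∑ a, (slc S a).card = S.card := by
  have h := card_filter_prod (N := N) (V := V) (fun x => x ∈ S)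
  have h2 : (Finset.univ.filter (fun x => x ∈ S)) = S := by ext x; simp
  rw [h2] at h
  exact h.symm

open Classical in
/-- conflicts in the next graph -/
lemma conf_newG {N : ℕ} {V : Type} [Fintype V] [DecidableEq V] (side : V → Bool)
    (H : SimpleGraph V) {d : ℕ} (h : (Fin N × V) × Fin d → Fin N × V)
    (O : Fin N × V → Finset ℕ) (L : Fin N × V → Finset ℕ) (π : ℕ → Bool)
    (S : Finset (Fin N × V)) :
    conf (newG H side h) O S ≤ ∑ a, conf H (fun v => O (a, v)) (slc S a) +
      2 * (Finset.univ.filter (fun p : (Fin N × V) × Fin d => (p.1 ∈ S ∧ h p ∈ S) ∧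
        (¬ O p.1 ⊆ Us L (fun x : Fin N × V => side x.2) π p.1 ∨
          ¬ O (h p) ⊆ Us L (fun x : Fin N × V => side x.2) π (h p)))).card := by
  set P := (Finset.univ.filter (fun p : (Fin N × V) × Fin d => (p.1 ∈ S ∧ h p ∈ S) ∧
        (¬ O p.1 ⊆ Us L (fun x : Fin N × V => side x.2) π p.1 ∨
          ¬ O (h p) ⊆ Us L (fun x : Fin N × V => side x.2) π (h p)))) with hP
  have hsub : ((S ×ˢ S).filter (fun p => (newG H side h).Adj p.1 p.2 ∧
      ¬ Disjoint (O p.1) (O p.2))) ⊆
      (Finset.univ.biUnion (fun a : Fin N =>
        (((slc S a) ×ˢ (slc S a)).filter (fun p => H.Adj p.1 p.2 ∧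
          ¬ Disjoint (O (a, p.1)) (O (a, p.2)))).image
            (fun p : V × V => (((a, p.1) : Fin N × V), ((a, p.2) : Fin N × V))))) ∪
      (P.image (fun p => (p.1, h p)) ∪ P.image (fun p => (h p, p.1))) := by
    rintro ⟨x, y⟩ hxy
    simp only [Finset.mem_filter, Finset.mem_product] at hxy
    obtain ⟨⟨hx, hy⟩, hadj, hdis⟩ := hxy
    rw [Finset.mem_union]
    rcases hadj with ⟨h1, h2⟩ | ⟨h1, j, h2⟩
    · left
      rw [Finset.mem_biUnion]
      obtain ⟨a, u⟩ := x
      obtain ⟨b, v⟩ := y
      simp only at h1 h2
      subst h1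
      refine ⟨a, Finset.mem_univ _, Finset.mem_image.2 ⟨(u, v), ?_, rfl⟩⟩
      simp only [Finset.mem_filter, Finset.mem_product, slc, Finset.mem_univ, true_and]
      exact ⟨⟨hx, hy⟩, h2, hdis⟩
    · right
      have hesc : ¬ O x ⊆ Us L (fun x : Fin N × V => side x.2) π x ∨
          ¬ O y ⊆ Us L (fun x : Fin N × V => side x.2) π y := by
        by_contra hcon
        rw [not_or, not_not, not_not] at hcon
        apply hdis
        rw [Finset.disjoint_left]
        intro c hcx hcy
        have e1 := (Finset.mem_filter.1 (hcon.1 hcx)).2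
        have e2 := (Finset.mem_filter.1 (hcon.2 hcy)).2
        exact h1 (e1.symm.trans e2)
      rw [Finset.mem_union]
      rcases h2 with h2 | h2
      · left
        refine Finset.mem_image.2 ⟨(x, j), ?_, by simp [h2]⟩
        rw [hP]
        simp only [Finset.mem_filter, Finset.mem_univ, true_and, h2]
        exact ⟨⟨hx, hy⟩, hesc⟩
      · right
        refine Finset.mem_image.2 ⟨(y, j), ?_, by simp [h2]⟩
        rw [hP]
        simp only [Finset.mem_filter, Finset.mem_univ, true_and, h2]
        exact ⟨⟨hy, hx⟩, hesc.symm⟩
  rw [conf]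
  refine (Finset.card_le_card hsub).trans ((Finset.card_union_le _ _).trans ?_)
  refine Nat.add_le_add ?_ ?_
  · refine Finset.card_biUnion_le.trans (Finset.sum_le_sum ?_)
    intro a _
    exact Finset.card_image_le
  · refine (Finset.card_union_le _ _).trans ?_
    have h1 := Finset.card_image_le (s := P) (f := fun p => (p.1, h p))
    have h2 := Finset.card_image_le (s := P) (f := fun p => (h p, p.1))
    omega

open Classical in
/-- Off-line step. -/
theorem off_step {V : Type} [Fintype V] [DecidableEq V] {q i k κ m E B N d : ℕ}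
    (hE1 : 1 ≤ E) (hB1 : 1 ≤ B) (side : V → Bool) (H : SimpleGraph V) (c : Finset V → ℕ)
    (h : (Fin N × V) × Fin d → Fin N × V)
    (hNP : ∀ L : V → Finset ℕ, (∀ v, k ≤ (L v).card) → ∀ π : ℕ → Bool, ∃ ρ : ℕ → Bool,
      2 * E * (Finset.univ.filter (fun v => κ ≤ (Us L side π v).card ∧
        (Us L side π v ∩ Us L side ρ v).card < m)).card ≤ Fintype.card V ∧
      2 * E ^ 2 * failc κ L side ρ ≤ Fintype.card V)
    (hIn : ∀ W : Finset (Fin N × V), E * W.card ≤ 2 * Fintype.card (Fin N × V) →
      q * B ^ 2 * (Finset.univ.filter (fun p : (Fin N × V) × Fin d => p.1 ∈ W ∨ h p ∈ W)).card ≤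
        Fintype.card (Fin N × V))
    (hoff : OffP q i k κ m E side H c) :
    OffP q (i + 1) k κ m E (fun x : Fin N × V => side x.2) (newG H side h) (newc B h c) := by
  intro L hL π' π hfail
  have key : ∀ a : Fin N, ∃ Oa : V → Finset ℕ, (∀ v, Oa v ⊆ L (a, v)) ∧ (∀ v, m ≤ (Oa v).card) ∧
      E * esc (fun v => L (a, v)) Oa side π ≤
        E * failc κ (fun v => L (a, v)) side π + Fintype.card V ∧
      esc (fun v => L (a, v)) Oa side π' ≤
        pbad m (fun v => L (a, v)) side π' π + E * failc κ (fun v => L (a, v)) side π ∧
      ∀ S : Finset V, q * conf H Oa S ≤ 2 * (i * S.card + q * c S) := by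
    intro a
    by_cases hg : E * failc κ (fun v => L (a, v)) side π ≤ Fintype.card V
    · exact hoff (fun v => L (a, v)) (fun v => hL (a, v)) π' π hg
    · obtain ⟨ρ, hρ1, hρ2⟩ := hNP (fun v => L (a, v)) (fun v => hL (a, v)) π
      have hg' : E * failc κ (fun v => L (a, v)) side ρ ≤ Fintype.card V := by
        refine le_trans ?_ hρ2
        apply Nat.mul_le_mul_right
        nlinarith
      obtain ⟨Oa, h1, h2, -, h4, h5⟩ := hoff (fun v => L (a, v)) (fun v => hL (a, v)) π ρ hg'
      refine ⟨Oa, h1, h2, ?_, ?_, h5⟩
      · have hpb : pbad m (fun v => L (a, v)) side π ρ ≤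
            failc κ (fun v => L (a, v)) side π +
            (Finset.univ.filter (fun v => κ ≤ (Us (fun v => L (a, v)) side π v).card ∧
              (Us (fun v => L (a, v)) side π v ∩ Us (fun v => L (a, v)) side ρ v).card < m)).card
            := by
          rw [pbad, failc]
          refine (Finset.card_le_card ?_).trans (Finset.card_union_le _ _)
          intro v hv
          simp only [Finset.mem_filter, Finset.mem_univ, true_and, Finset.mem_union] at hv ⊢
          by_cases hκ : (Us (fun v => L (a, v)) side π v).card < κ
          · exact Or.inl hκ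
          · exact Or.inr ⟨not_lt.1 hκ, hv⟩
        have h6 : 2 * (E * esc (fun v => L (a, v)) Oa side π) ≤
            2 * (E * failc κ (fun v => L (a, v)) side π + Fintype.card V) := by
          calc 2 * (E * esc (fun v => L (a, v)) Oa side π)
              = 2 * E * esc (fun v => L (a, v)) Oa side π := by ring
            _ ≤ 2 * E * (pbad m (fun v => L (a, v)) side π ρ +
                  E * failc κ (fun v => L (a, v)) side ρ) := Nat.mul_le_mul_left _ h4
            _ ≤ 2 * E * ((failc κ (fun v => L (a, v)) side π +
                  (Finset.univ.filter (fun v => κ ≤ (Us (fun v => L (a, v)) side π v).card ∧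
              (Us (fun v => L (a, v)) side π v ∩ Us (fun v => L (a, v)) side ρ v).card < m)).card)
                  + E * failc κ (fun v => L (a, v)) side ρ) :=
                Nat.mul_le_mul_left _ (Nat.add_le_add_right hpb _)
            _ = 2 * E * failc κ (fun v => L (a, v)) side π +
                2 * E * (Finset.univ.filter (fun v => κ ≤ (Us (fun v => L (a, v)) side π v).card ∧
              (Us (fun v => L (a, v)) side π v ∩ Us (fun v => L (a, v)) side ρ v).card < m)).card
                + 2 * E ^ 2 * failc κ (fun v => L (a, v)) side ρ := by ring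
            _ ≤ 2 * E * failc κ (fun v => L (a, v)) side π + Fintype.card V + Fintype.card V := by
                gcongr
            _ = _ := by ring
        exact Nat.le_of_mul_le_mul_left h6 (by norm_num)
      · refine le_trans ?_ (Nat.le_add_left _ _)
        refine le_trans ?_ (not_le.1 hg).le
        rw [esc]
        exact Finset.card_le_univ _
  choose O hO1 hO2 hO3 hO4 hO5 using key
  have hfsum : failc κ L (fun x : Fin N × V => side x.2) π =
      ∑ a, failc κ (fun v => L (a, v)) side π := by
    rw [failc, card_filter_prod]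
    rfl
  have hpsum : pbad m L (fun x : Fin N × V => side x.2) π' π =
      ∑ a, pbad m (fun v => L (a, v)) side π' π := by
    rw [pbad, card_filter_prod]
    rfl
  have hesum : ∀ σ : ℕ → Bool, esc L (fun x : Fin N × V => O x.1 x.2)
      (fun x : Fin N × V => side x.2) σ = ∑ a, esc (fun v => L (a, v)) (O a) side σ := by
    intro σ
    rw [esc, card_filter_prod]
    rfl
  have hcardX : Fintype.card (Fin N × V) = N * Fintype.card V := by
    rw [Fintype.card_prod, Fintype.card_fin]
  have hesc : E * esc L (fun x : Fin N × V => O x.1 x.2) (fun x : Fin N × V => side x.2) π ≤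
      E * failc κ L (fun x : Fin N × V => side x.2) π + Fintype.card (Fin N × V) := by
    rw [hesum, hfsum, Finset.mul_sum, Finset.mul_sum]
    refine (Finset.sum_le_sum (fun a _ => hO3 a)).trans ?_
    rw [Finset.sum_add_distrib, hcardX]
    simp
  refine ⟨fun x => O x.1 x.2, fun x => hO1 x.1 x.2, fun x => hO2 x.1 x.2, hesc, ?_, ?_⟩
  · rw [hesum, hpsum, hfsum, Finset.mul_sum, ← Finset.sum_add_distrib]
    exact Finset.sum_le_sum (fun a _ => hO4 a)
  · intro S
    have hc := conf_newG side H h (fun x : Fin N × V => O x.1 x.2) L π S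
    set P := (Finset.univ.filter (fun p : (Fin N × V) × Fin d => (p.1 ∈ S ∧ h p ∈ S) ∧
        (¬ (fun x : Fin N × V => O x.1 x.2) p.1 ⊆ Us L (fun x : Fin N × V => side x.2) π p.1 ∨
          ¬ (fun x : Fin N × V => O x.1 x.2) (h p) ⊆
            Us L (fun x : Fin N × V => side x.2) π (h p)))) with hP
    have h1 : ∑ a, q * conf H (fun v => O a v) (slc S a) ≤
        2 * (i * S.card + q * ∑ a, c (slc S a)) := by
      refine (Finset.sum_le_sum (fun a _ => hO5 a (slc S a))).trans ?_
      rw [← Finset.mul_sum, Finset.sum_add_distrib, ← Finset.mul_sum, ← Finset.mul_sum,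
        sum_card_slc]
    have h2 : q * P.card ≤ S.card + q * (if B ^ 2 * S.card < Fintype.card (Fin N × V)
        then ecnt h S else 0) := by
      split_ifs with hlt
      · refine le_trans ?_ (Nat.le_add_left _ _)
        apply Nat.mul_le_mul_left
        rw [ecnt, hP]
        apply Finset.card_le_card
        intro p hp
        simp only [Finset.mem_filter, Finset.mem_univ, true_and] at hp ⊢
        exact hp.1
      · have hW := hIn (Finset.univ.filter (fun x : Fin N × V => ¬ O x.1 x.2 ⊆
            Us L (fun x : Fin N × V => side x.2) π x)) (by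
          have : E * esc L (fun x : Fin N × V => O x.1 x.2) (fun x : Fin N × V => side x.2) π ≤
              2 * Fintype.card (Fin N × V) := by
            refine hesc.trans ?_
            omega
          exact this)
        have hPsub : P.card ≤ (Finset.univ.filter (fun p : (Fin N × V) × Fin d =>
            p.1 ∈ (Finset.univ.filter (fun x : Fin N × V => ¬ O x.1 x.2 ⊆
              Us L (fun x : Fin N × V => side x.2) π x)) ∨
            h p ∈ (Finset.univ.filter (fun x : Fin N × V => ¬ O x.1 x.2 ⊆
              Us L (fun x : Fin N × V => side x.2) π x)))).card := by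
          rw [hP]
          apply Finset.card_le_card
          intro p hp
          simp only [Finset.mem_filter, Finset.mem_univ, true_and] at hp ⊢
          exact hp.2
        have hB2 : 0 < B ^ 2 := by positivity
        have h3 : B ^ 2 * (q * P.card) ≤ B ^ 2 * S.card := by
          calc B ^ 2 * (q * P.card) = q * B ^ 2 * P.card := by ring
            _ ≤ _ := Nat.mul_le_mul_left _ hPsub
            _ ≤ Fintype.card (Fin N × V) := hW
            _ ≤ _ := not_lt.1 hlt
        have h4 := Nat.le_of_mul_le_mul_left h3 hB2
        omega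
    calc q * conf (newG H side h) (fun x : Fin N × V => O x.1 x.2) S
        ≤ q * (∑ a, conf H (fun v => O a v) (slc S a) + 2 * P.card) := Nat.mul_le_mul_left _ hc
      _ = ∑ a, q * conf H (fun v => O a v) (slc S a) + 2 * (q * P.card) := by
          rw [Nat.mul_add, Finset.mul_sum]; ring
      _ ≤ 2 * (i * S.card + q * ∑ a, c (slc S a)) + 2 * (S.card + q *
            (if B ^ 2 * S.card < Fintype.card (Fin N × V) then ecnt h S else 0)) :=
          Nat.add_le_add h1 (Nat.mul_le_mul_left _ h2)
      _ = 2 * ((i + 1) * S.card + q * newc B h c S) := by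
          rw [newc]; ring

end Run7.h264
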