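import Pool.Agent.Run7.h264.Defs

/-!
The recursion for the generating functions.
-/

set_option autoImplicit false

namespace Run7.h264

open Finset

/-- finite sets in a product are tuples of slices -/
def slcEquiv (N : ℕ) (V : Type) [Fintype V] [DecidableEq V] :
    Finset (Fin N × V) ≃ (Fin N → Finset V) where
  toFun S a := slc S a
  invFun F := Finset.univ.filter (fun x => x.2 ∈ F x.1)
  left_inv S := by
    ext x
    simp [slc]
  right_inv F := by
    funext a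
    ext v
    simp [slc]

lemma sum_card_slc' {N : ℕ} {V : Type} [Fintype V] [DecidableEq V] (S : Finset (Fin N × V)) :
    ∑ a, (slc S a).card = S.card := by
  have h : ∀ a : Fin N, (slc S a).card = ∑ v : V, if (a, v) ∈ S then 1 else 0 := by
    intro a
    rw [slc, Finset.card_filter]
  simp_rw [h]
  rw [← Fintype.sum_prod_type (f := fun x : Fin N × V => if x ∈ S then 1 else 0)]
  simp

lemma Zs_prod {N : ℕ} {V : Type} [Fintype V] [DecidableEq V] (z B : ℝ) (c : Finset V → ℕ) :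
    ∑ S : Finset (Fin N × V), z ^ S.card * B ^ (∑ a, c (slc S a)) = (Zs z B c) ^ N := by
  have h1 : ∀ S : Finset (Fin N × V), z ^ S.card * B ^ (∑ a, c (slc S a)) =
      ∏ a, (z ^ (slc S a).card * B ^ (c (slc S a))) := by
    intro S
    rw [Finset.prod_mul_distrib, Finset.prod_pow_eq_pow_sum, Finset.prod_pow_eq_pow_sum,
      sum_card_slc']
  simp_rw [h1]
  have h3 : ∑ S : Finset (Fin N × V), ∏ a, (z ^ (slc S a).card * B ^ (c (slc S a))) =
      ∑ F : Fin N → Finset V, ∏ a, (z ^ (F a).card * B ^ (c (F a))) :=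
    Fintype.sum_equiv (slcEquiv N V) _ _ (fun S => rfl)
  rw [h3]
  have h2 := Finset.prod_univ_sum (fun _ : Fin N => (univ : Finset (Finset V)))
    (fun _ S => z ^ S.card * B ^ (c S))
  rw [Fintype.piFinset_univ] at h2
  rw [← h2, Finset.prod_const, Finset.card_univ, Fintype.card_fin]
  rfl

lemma Zs_split {X : Type} [Fintype X] [DecidableEq X] (z B : ℝ) (c : Finset X → ℕ)
    (hc : c ∅ = 0) : Zs z B c =
      1 + ∑ S ∈ (univ : Finset (Finset X)).filter (fun S => S ≠ ∅), z ^ S.card * B ^ (c S) := by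
  rw [Zs, ← Finset.sum_filter_add_sum_filter_not (univ : Finset (Finset X)) (fun S => S = ∅)]
  congr 1
  have : (univ : Finset (Finset X)).filter (fun S => S = ∅) = {∅} := by
    ext S; simp
  rw [this, Finset.sum_singleton, hc]
  simp

lemma newc_empty {N : ℕ} {V : Type} [Fintype V] [DecidableEq V] (B : ℕ) {d : ℕ}
    (h : (Fin N × V) × Fin d → Fin N × V) (c : Finset V → ℕ) (hc : c ∅ = 0) :
    newc B h c ∅ = 0 := by
  have h1 : ∀ a : Fin N, slc (∅ : Finset (Fin N × V)) a = ∅ := by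
    intro a; simp [slc]
  have h2 : ecnt h ∅ = 0 := by simp [ecnt]
  simp [newc, h1, h2, hc]

/-- one step of the recursion for the generating function -/
lemma Z_step {N : ℕ} {V : Type} [Fintype V] [DecidableEq V] (z z' : ℝ) (B Λ : ℕ) {d : ℕ}
    (h : (Fin N × V) × Fin d → Fin N × V) (c : Finset V → ℕ) (hc : c ∅ = 0)
    (hh : ∑ S ∈ (univ : Finset (Finset (Fin N × V))).filter (fun S => S ≠ ∅),
        z ^ S.card * (B : ℝ) ^ ((∑ a, c (slc S a)) +
          if B ^ 2 * S.card < Fintype.card (Fin N × V) then ecnt h S else 0) ≤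
        Λ * ∑ S ∈ (univ : Finset (Finset (Fin N × V))).filter (fun S => S ≠ ∅),
          z' ^ S.card * (B : ℝ) ^ (∑ a, c (slc S a))) :
    Zs z B (newc B h c) ≤ 1 + Λ * ((Zs z' B c) ^ N - 1) := by
  rw [Zs_split z B _ (newc_empty B h c hc)]
  have h1 : ∑ S ∈ (univ : Finset (Finset (Fin N × V))).filter (fun S => S ≠ ∅),
          z' ^ S.card * (B : ℝ) ^ (∑ a, c (slc S a)) = (Zs z' B c) ^ N - 1 := by
    rw [← Zs_prod]
    have h2 := Zs_split z' (B : ℝ) (fun S : Finset (Fin N × V) => ∑ a, c (slc S a)) (by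
      have h3 : ∀ a : Fin N, slc (∅ : Finset (Fin N × V)) a = ∅ := by
        intro a; simp [slc]
      simp [h3, hc])
    rw [Zs] at h2
    rw [h2]
    ring
  rw [← h1]
  have h4 : ∀ S, newc B h c S = (∑ a, c (slc S a)) +
          if B ^ 2 * S.card < Fintype.card (Fin N × V) then ecnt h S else 0 := fun S => rfl
  simp only [h4]
  linarith

/-- the numerical bound of the recursion -/
noncomputable def Rb (Λ N B : ℝ) (i : ℕ) : ℝ :=
  if 4 * Λ * B ^ 4 ≤ N then 2 * N ^ i * (3 / B ^ 8 + Λ / N) - 2 * Λ / N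
  else 6 / B ^ 8 * (Λ * N) ^ i

lemma Rb_zero (Λ N B : ℝ) : Rb Λ N B 0 = 6 / B ^ 8 := by
  unfold Rb
  split_ifs <;> ring

lemma Rb_step (Λ : ℕ) (N B : ℝ) (hΛ : 1 ≤ Λ) (hN : 2 ≤ N) (hB : 0 < B) (i : ℕ) :
    1 + (Λ : ℝ) * (Real.exp (N * Rb Λ N B i) - 1) ≤ Real.exp (Rb Λ N B (i + 1)) := by
  have hΛ1 : (1 : ℝ) ≤ Λ := by exact_mod_cast hΛ
  have hN0 : 0 < N := by linarith
  unfold Rb
  split_ifs with hc
  · set x := N * (2 * N ^ i * (3 / B ^ 8 + Λ / N) - 2 * Λ / N) with hx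
    have h1 : 1 + (Λ : ℝ) * (Real.exp x - 1) ≤ Λ * Real.exp x := by linarith
    have h2 : (Λ : ℝ) ≤ Real.exp Λ := by
      have := Real.add_one_le_exp (Λ : ℝ); linarith
    have h3 : (Λ : ℝ) * Real.exp x ≤ Real.exp (Λ + x) := by
      rw [Real.exp_add]
      exact mul_le_mul_of_nonneg_right h2 (Real.exp_pos _).le
    refine h1.trans (h3.trans (Real.exp_le_exp.2 ?_))
    have h4 : x = 2 * N ^ (i + 1) * (3 / B ^ 8 + Λ / N) - 2 * Λ := by
      rw [hx]; field_simp; ring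
    rw [h4]
    have h5 : 2 * (Λ : ℝ) / N ≤ Λ := by
      rw [div_le_iff₀ hN0]
      nlinarith
    linarith
  · set x := N * (6 / B ^ 8 * (Λ * N) ^ i) with hx
    have hx0 : 0 ≤ x := by positivity
    have h1 : 1 + (Λ : ℝ) * (Real.exp x - 1) ≤ (Real.exp x) ^ Λ := by
      have h2 := one_add_mul_le_pow (a := Real.exp x - 1) (by
        have := Real.exp_pos x; linarith) Λ
      have h3 : 1 + (Real.exp x - 1) = Real.exp x := by ring
      rw [h3] at h2
      exact h2
    refine h1.trans ?_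
    rw [← Real.exp_nat_mul]
    apply Real.exp_le_exp.2
    rw [hx]
    apply le_of_eq
    ring

lemma Rb_le (Λ q : ℕ) (N B : ℝ) (hΛ : 1 ≤ Λ) (hN : 12 * (Λ : ℝ) ^ (q + 1) ≤ N) (hB : 2 ≤ B)
    (i : ℕ) (hi : i ≤ q) : Rb Λ N B i ≤ 2 * N ^ i / B ^ 4 := by
  have hΛ1 : (1 : ℝ) ≤ Λ := by exact_mod_cast hΛ
  have hN0 : 0 < N := by
    have : (0 : ℝ) < 12 * (Λ : ℝ) ^ (q + 1) := by positivity
    linarith
  have hB0 : 0 < B := by linarith
  have hB4 : (16 : ℝ) ≤ B ^ 4 := by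
    calc (16 : ℝ) = 2 ^ 4 := by norm_num
      _ ≤ _ := pow_le_pow_left₀ (by norm_num) hB 4
  have hB8 : B ^ 8 = B ^ 4 * B ^ 4 := by ring
  unfold Rb
  split_ifs with hc
  · have h1 : (Λ : ℝ) / N ≤ 1 / (4 * B ^ 4) := by
      rw [div_le_div_iff₀ hN0 (by positivity)]
      linarith
    have h2 : 3 / B ^ 8 ≤ 3 / (16 * B ^ 4) := by
      rw [hB8]
      apply div_le_div_of_nonneg_left (by norm_num) (by positivity)
      exact mul_le_mul_of_nonneg_right hB4 (by positivity)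
    have h3 : 3 / B ^ 8 + Λ / N ≤ 1 / B ^ 4 := by
      have h4 : 3 / (16 * B ^ 4) + 1 / (4 * B ^ 4) ≤ 1 / B ^ 4 := by
        have : 3 / (16 * B ^ 4) + 1 / (4 * B ^ 4) = (7 / 16) * (1 / B ^ 4) := by
          field_simp; norm_num
        rw [this]
        have : 0 < 1 / B ^ 4 := by positivity
        linarith
      linarith
    have h5 : 2 * N ^ i * (3 / B ^ 8 + Λ / N) ≤ 2 * N ^ i * (1 / B ^ 4) :=
      mul_le_mul_of_nonneg_left h3 (by positivity)
    have h6 : 0 ≤ 2 * (Λ : ℝ) / N := by positivity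
    have h7 : 2 * N ^ i * (1 / B ^ 4) = 2 * N ^ i / B ^ 4 := by ring
    linarith
  · push Not at hc
    have h1 : 3 * (Λ : ℝ) ^ q ≤ B ^ 4 := by
      have h2 : 12 * (Λ : ℝ) ^ (q + 1) < 4 * Λ * B ^ 4 := lt_of_le_of_lt hN hc
      have h3 : 4 * (Λ : ℝ) * (3 * (Λ : ℝ) ^ q) < 4 * Λ * B ^ 4 := by
        calc 4 * (Λ : ℝ) * (3 * (Λ : ℝ) ^ q) = 12 * (Λ : ℝ) ^ (q + 1) := by ring
          _ < _ := h2
      exact (lt_of_mul_lt_mul_left h3 (by positivity)).le
    have h4 : (Λ : ℝ) ^ i ≤ (Λ : ℝ) ^ q := pow_le_pow_right₀ hΛ1 hi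
    have h5 : 6 / B ^ 8 * (Λ * N) ^ i = (2 * N ^ i / B ^ 4) * (3 * (Λ : ℝ) ^ i / B ^ 4) := by
      rw [mul_pow, hB8]
      field_simp
      ring
    rw [h5]
    have h6 : 3 * (Λ : ℝ) ^ i / B ^ 4 ≤ 1 := by
      rw [div_le_one (by positivity)]
      linarith
    calc _ ≤ (2 * N ^ i / B ^ 4) * 1 := mul_le_mul_of_nonneg_left h6 (by positivity)
      _ = _ := by ring

/-- the base generating function -/
lemma Zs_base (z B : ℝ) (hz : 0 ≤ z) : Zs z B (fun _ : Finset Bool => 0) ≤ Real.exp (2 * z) := by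
  rw [Zs]
  simp only [pow_zero, mul_one]
  have h := Fintype.sum_pow_mul_eq_add_pow Bool z 1
  simp only [one_pow, mul_one, Fintype.card_bool] at h
  rw [h]
  calc (z + 1) ^ 2 ≤ (Real.exp z) ^ 2 := pow_le_pow_left₀ (by linarith) (Real.add_one_le_exp z) 2
    _ = _ := by rw [← Real.exp_nat_mul]; norm_num

lemma pow_q_le {q : ℕ} (hq : 1 ≤ q) : (1 + 1 / (q : ℝ)) ^ q ≤ 3 := by
  have hq0 : (0 : ℝ) < q := by exact_mod_cast hq
  have h2 : 1 + 1 / (q : ℝ) ≤ Real.exp (1 / q) := by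
    have := Real.add_one_le_exp (1 / (q : ℝ)); linarith
  calc (1 + 1 / (q : ℝ)) ^ q ≤ (Real.exp (1 / q)) ^ q := pow_le_pow_left₀ (by positivity) h2 q
    _ = Real.exp 1 := by rw [← Real.exp_nat_mul]; congr 1; field_simp
    _ ≤ 3 := Real.exp_one_lt_three.le

/-- comparison of two consecutive scales -/
lemma c_step {N : ℕ} {V : Type} [Fintype V] [DecidableEq V] (z : ℝ) (B B' : ℕ) {d : ℕ}
    (h : (Fin N × V) × Fin d → Fin N × V) (c c' : Finset V → ℕ) (hB : 3 ≤ B) (hB' : B' = B ^ 2)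
    (hz : 1 / (B : ℝ) ^ 8 ≤ z)
    (hcc : ∀ S, c S ≤ c' S + 9 * S.card)
    (hZ : Zs z B (newc B h c) ≤ Real.exp ((Fintype.card (Fin N × V) : ℝ) / (B : ℝ) ^ 4))
    (S : Finset (Fin N × V)) : newc B h c S ≤ newc B' h c' S + 9 * S.card := by
  have hB0 : (0 : ℝ) < B := by
    have : 0 < B := by omega
    exact_mod_cast this
  have hB3 : (3 : ℝ) ≤ B := by exact_mod_cast hB
  have hz0 : 0 < z := lt_of_lt_of_le (by positivity) hz
  by_cases hlt : B' ^ 2 * S.card < Fintype.card (Fin N × V)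
  · have hlt2 : B ^ 2 * S.card < Fintype.card (Fin N × V) := by
      refine lt_of_le_of_lt ?_ hlt
      apply Nat.mul_le_mul_right
      rw [hB', ← pow_mul]
      exact Nat.pow_le_pow_right (by omega) (by norm_num)
    rw [newc, newc, if_pos hlt, if_pos hlt2]
    have h1 : ∑ a, c (slc S a) ≤ ∑ a, (c' (slc S a) + 9 * (slc S a).card) :=
      Finset.sum_le_sum (fun a _ => hcc _)
    rw [Finset.sum_add_distrib, ← Finset.mul_sum, sum_card_slc'] at h1
    omega
  · have hge : Fintype.card (Fin N × V) ≤ B ^ 4 * S.card := by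
      rw [hB', ← pow_mul] at hlt
      exact not_lt.1 hlt
    have h1 : z ^ S.card * (B : ℝ) ^ (newc B h c S) ≤ Zs z B (newc B h c) :=
      Finset.single_le_sum (f := fun S : Finset (Fin N × V) =>
        z ^ S.card * (B : ℝ) ^ (newc B h c S)) (fun S _ => by positivity) (Finset.mem_univ S)
    have h2 : Real.exp ((Fintype.card (Fin N × V) : ℝ) / (B : ℝ) ^ 4) ≤ (B : ℝ) ^ S.card := by
      have h3 : (Fintype.card (Fin N × V) : ℝ) / (B : ℝ) ^ 4 ≤ S.card := by
        rw [div_le_iff₀ (by positivity)]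
        have : ((Fintype.card (Fin N × V) : ℕ) : ℝ) ≤ ((B ^ 4 * S.card : ℕ) : ℝ) := by
          exact_mod_cast hge
        push_cast at this ⊢
        linarith
      calc _ ≤ Real.exp (S.card : ℝ) := Real.exp_le_exp.2 h3
        _ = (Real.exp 1) ^ S.card := by rw [← Real.exp_nat_mul]; congr 1; ring
        _ ≤ _ := pow_le_pow_left₀ (Real.exp_pos _).le (Real.exp_one_lt_three.le.trans hB3) _
    have h4 : (1 / (B : ℝ) ^ 8) ^ S.card * (B : ℝ) ^ (newc B h c S) ≤ (B : ℝ) ^ S.card := by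
      refine le_trans ?_ (h1.trans (hZ.trans h2))
      apply mul_le_mul_of_nonneg_right _ (by positivity)
      exact pow_le_pow_left₀ (by positivity) hz _
    have h5 : (B : ℝ) ^ (newc B h c S) ≤ (B : ℝ) ^ (9 * S.card) := by
      have h6 : (1 / (B : ℝ) ^ 8) ^ S.card = 1 / (B : ℝ) ^ (8 * S.card) := by
        rw [one_div, inv_pow, ← pow_mul, one_div]
      rw [h6, one_div, inv_mul_le_iff₀ (by positivity), ← pow_add] at h4
      have : 8 * S.card + S.card = 9 * S.card := by ring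
      rw [this] at h4
      exact h4
    have h7 := (pow_le_pow_iff_right₀ (by linarith : (1 : ℝ) < B)).1 h5
    omega

end Run7.h264
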