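import Pool.Agent.Run7.h264.On
import Pool.Agent.Run7.h264.Off
import Pool.Agent.Run7.h264.NP
import Pool.Agent.Run7.h264.Ex
import Pool.Agent.Run7.h264.InB
import Pool.Agent.Run7.h264.Z

/-!
The levels of the construction.
-/

set_option autoImplicit false

namespace Run7.h264

open Finset

/-- the scale `j` -/
def bb (b j : ℕ) : ℕ := (2 ^ b) ^ (2 ^ j)

/-- everything we keep about level `i` -/
structure Lev (q N l b J k κ m i : ℕ) (V : Type) [Fintype V] [DecidableEq V] (side : V → Bool)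
    (H : SimpleGraph V) (c : ℕ → Finset V → ℕ) : Prop where
  card : Fintype.card V = 2 * N ^ i
  sides : ∀ s, 2 * (univ.filter (fun v => side v = s)).card = Fintype.card V
  on : OnP q i side H
  off : OffP q i k κ m (2 ^ (4 * b)) side H (c 0)
  cempty : ∀ j, c j ∅ = 0
  cZ : ∀ j < J, Zs (1 / (bb b j : ℝ) ^ 8 * (1 + 1 / (q : ℝ)) ^ (q - i)) (bb b j : ℝ) (c j) ≤
    Real.exp (Rb ((2 ^ l : ℕ) : ℝ) N (bb b j : ℝ) i)
  cc : ∀ j < J, ∀ S, c j S ≤ c (j + 1) S + 9 * S.card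
  cJ : ∀ S, c J S = 0

lemma bb_succ (b j : ℕ) : bb b (j + 1) = (bb b j) ^ 2 := by
  unfold bb
  rw [← pow_mul (2 ^ b) (2 ^ j) 2, ← pow_succ]

lemma bb_ge (b j : ℕ) : 2 ^ b ≤ bb b j := by
  unfold bb
  exact Nat.le_self_pow (by positivity) _

lemma Zs_nonneg {X : Type} [Fintype X] [DecidableEq X] (z B : ℝ) (hz : 0 ≤ z) (hB : 0 ≤ B)
    (c : Finset X → ℕ) : 0 ≤ Zs z B c :=
  Finset.sum_nonneg (fun S _ => by positivity)

lemma lev_zero {q N l b J k κ m : ℕ} (hq : 1 ≤ q) (hb : 1 ≤ b) (hm : m ≤ κ) :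
    Lev q N l b J k κ m 0 Bool (fun b => b) (⊥ : SimpleGraph Bool) (fun _ _ => 0) where
  card := by simp
  sides := by
    intro s
    simp [Finset.filter_eq']
  on := on_zero hq
  off := by
    apply off_zero _ hm
    calc 3 ≤ 2 ^ (4 * 1) := by norm_num
      _ ≤ 2 ^ (4 * b) := Nat.pow_le_pow_right (by norm_num) (by omega)
  cempty := fun _ => rfl
  cZ := by
    intro j _
    have h0 : (0 : ℝ) < (bb b j : ℝ) := by
      have : 0 < bb b j := lt_of_lt_of_le (by positivity) (bb_ge b j)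
      exact_mod_cast this
    refine (Zs_base _ _ (by positivity)).trans (Real.exp_le_exp.2 ?_)
    rw [Rb_zero, Nat.sub_zero]
    have h1 := pow_q_le hq
    calc 2 * (1 / (bb b j : ℝ) ^ 8 * (1 + 1 / (q : ℝ)) ^ q) ≤ 2 * (1 / (bb b j : ℝ) ^ 8 * 3) := by
          gcongr
      _ = _ := by ring
  cc := by
    intro j _ S
    simp
  cJ := fun _ => rfl

theorem lev_step {q N N' l b J k κ m i : ℕ} (hq : 1 ≤ q) (hi : i < q) (hN' : 0 < N')
    (hN : N = 4 * q * N') (hΛ : 4 * (J + 1) ≤ 2 ^ l)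
    (hB : 2 * q * (4 * (32 * q ^ 2) ^ 2) ≤ 2 ^ b)
    (hA1 : 2 * q * (6 * (4 * (32 * q ^ 2) ^ 2) + 8 * b + 2) ≤ 2 ^ (2 * b))
    (hA2 : 2 * q * l * 2 ^ (2 * b) ≤ 2 * N)
    (hN12 : 12 * (2 ^ l) ^ (q + 1) ≤ N)
    (hbJ : 2 * N ^ q ≤ (bb b J) ^ 2)
    (hP1 : 4 * 2 ^ (4 * b) * 2 ^ m * 3 ^ κ ≤ 4 ^ κ)
    (hP0 : 4 * (2 ^ (4 * b)) ^ 2 * 2 ^ κ * 3 ^ k ≤ 4 ^ k)
    {V : Type} [Fintype V] [DecidableEq V] {side : V → Bool} {H : SimpleGraph V}
    {c : ℕ → Finset V → ℕ} (hL : Lev q N l b J k κ m i V side H c) :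
    ∃ (V' : Type) (_ : Fintype V') (_ : DecidableEq V') (side' : V' → Bool)
      (H' : SimpleGraph V') (c' : ℕ → Finset V' → ℕ), Lev q N l b J k κ m (i + 1) V' side' H' c' := by
  have hNpos : 0 < N := by rw [hN]; positivity
  have hcardX : Fintype.card (Fin N × V) = 2 * N ^ (i + 1) := by
    rw [Fintype.card_prod, Fintype.card_fin, hL.card]; ring
  have hXpos : 0 < Fintype.card (Fin N × V) := by rw [hcardX]; positivity
  have hVpos : 0 < Fintype.card V := by rw [hL.card]; positivity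
  have hb1 : ∀ j, 2 * q * (4 * (32 * q ^ 2) ^ 2) ≤ bb b j := fun j => hB.trans (bb_ge b j)
  have hb3 : ∀ j, 3 ≤ bb b j := by
    intro j
    refine le_trans ?_ (hb1 j)
    have : 1 ≤ q ^ 2 := Nat.one_le_pow _ _ hq
    have h2 : 1 ≤ (32 * q ^ 2) ^ 2 := Nat.one_le_pow _ _ (by omega)
    calc 3 ≤ 2 * 1 * (4 * 1) := by norm_num
      _ ≤ _ := Nat.mul_le_mul (Nat.mul_le_mul_left _ hq) (Nat.mul_le_mul_left _ h2)
  have hbpos : ∀ j, (0 : ℝ) < (bb b j : ℝ) := by
    intro j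
    have : 0 < bb b j := by have := hb3 j; omega
    exact_mod_cast this
  have hq0 : (0 : ℝ) < q := by exact_mod_cast hq
  set z : ℕ → ℝ := fun j => 1 / (bb b j : ℝ) ^ 8 * (1 + 1 / (q : ℝ)) ^ (q - (i + 1)) with hz
  have hz0 : ∀ j, 0 < z j := by
    intro j
    have := hbpos j
    rw [hz]
    positivity
  obtain ⟨h, hE, hZ, hG⟩ := exists_h (X := Fin N × V) (q := q) (M := 32 * q ^ 2) (J := J)
    (Λ := 2 ^ l) hXpos (by have := Nat.one_le_pow 2 q hq; omega) hq hΛ (fun j => bb b j)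
    (fun j _ => hb1 j) (fun j _ => by have := hb3 j; omega) z (fun j _ => hz0 j)
    (fun j S => ∑ a, c j (slc S a)) (1 / ((2 : ℝ) ^ (4 * b) * 3 ^ (4 * (32 * q ^ 2) ^ 2)))
    (by positivity)
  have hzz : ∀ j, z j * (1 + 1 / (q : ℝ)) = 1 / (bb b j : ℝ) ^ 8 * (1 + 1 / (q : ℝ)) ^ (q - i) := by
    intro j
    have hsub : q - i = (q - (i + 1)) + 1 := by omega
    rw [hz, hsub, pow_succ]
    ring
  have hNreal : (2 : ℝ) ≤ N := by
    have : 2 ≤ N := by
      have h1 : 1 ≤ (2 ^ l) ^ (q + 1) := Nat.one_le_pow _ _ (by positivity)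
      omega
    exact_mod_cast this
  have hcZ : ∀ j < J, Zs (z j) (bb b j : ℝ) (newc (bb b j) h (c j)) ≤
      Real.exp (Rb ((2 ^ l : ℕ) : ℝ) N (bb b j : ℝ) (i + 1)) := by
    intro j hj
    have h1 := Z_step (z j) (z j * (1 + 1 / (q : ℝ))) (bb b j) (2 ^ l) h (c j) (hL.cempty j)
      (by exact_mod_cast hZ j hj)
    rw [hzz j] at h1
    refine h1.trans ?_
    have h2 := Rb_step (2 ^ l) (N : ℝ) (bb b j : ℝ) (Nat.one_le_pow _ _ (by norm_num)) hNreal
      (hbpos j) i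
    refine le_trans ?_ h2
    have h3 := hL.cZ j hj
    have h4 : (Zs (1 / (bb b j : ℝ) ^ 8 * (1 + 1 / (q : ℝ)) ^ (q - i)) (bb b j : ℝ) (c j)) ^ N ≤
        Real.exp ((N : ℝ) * Rb ((2 ^ l : ℕ) : ℝ) N (bb b j : ℝ) i) := by
      rw [Real.exp_nat_mul]
      apply pow_le_pow_left₀ _ h3
      apply Zs_nonneg _ _ _ (hbpos j).le
      have := hbpos j
      positivity
    have h5 : (0 : ℝ) ≤ ((2 ^ l : ℕ) : ℝ) := by positivity
    have h6 := mul_le_mul_of_nonneg_left (sub_le_sub_right h4 1) h5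
    linarith
  refine ⟨Fin N × V, inferInstance, inferInstance, fun x => side x.2, newG H side h,
    fun j => newc (bb b j) h (c j), ?_, ?_, ?_, ?_, ?_, ?_, ?_, ?_⟩
  · exact hcardX
  · intro s
    have : (Finset.univ.filter (fun x : Fin N × V => side x.2 = s)) =
        Finset.univ ×ˢ (Finset.univ.filter (fun v => side v = s)) := by
      ext x; simp
    rw [this, Finset.card_product, Fintype.card_prod, Finset.card_univ, ← hL.sides s]
    ring
  · exact on_step hq hi hN' hN side H h (by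
      intro s
      convert hL.sides s) hVpos hE hL.on
  · have h1 : bb b 0 = 2 ^ b := by simp [bb]
    have hIn : ∀ W : Finset (Fin N × V), 2 ^ (4 * b) * W.card ≤ 2 * Fintype.card (Fin N × V) →
        q * (bb b 0) ^ 2 * (Finset.univ.filter
          (fun p : (Fin N × V) × Fin (4 * (32 * q ^ 2) ^ 2) => p.1 ∈ W ∨ h p ∈ W)).card ≤
        Fintype.card (Fin N × V) := by
      intro W hW
      rw [h1]
      refine in_bound h hG hA1 ?_ W hW
      refine hA2.trans ?_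
      rw [hcardX]
      apply Nat.mul_le_mul_left
      exact Nat.le_self_pow (by omega) _
    have hoff := off_step (q := q) (i := i) (k := k) (κ := κ) (m := m) (E := 2 ^ (4 * b))
      (B := bb b 0) Nat.one_le_two_pow (by have := hb3 0; omega) side H (c 0) h
      (fun L hL' π => by
        have := exists_pattern hP1 hP0 side L hL' π
        convert this) (by
        intro W hW
        have := hIn W hW
        convert this) hL.off
    exact hoff
  · intro j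
    exact newc_empty _ h (c j) (hL.cempty j)
  · intro j hj
    exact hcZ j hj
  · intro j hj S
    refine c_step (z j) (bb b j) (bb b (j + 1)) h (c j) (c (j + 1)) (hb3 j) (bb_succ b j) ?_
      (hL.cc j hj) ?_ S
    · have h0 := hbpos j
      rw [hz]
      have : (1 : ℝ) ≤ (1 + 1 / (q : ℝ)) ^ (q - (i + 1)) := by
        apply one_le_pow₀
        have : (0 : ℝ) ≤ 1 / q := by positivity
        linarith
      calc 1 / (bb b j : ℝ) ^ 8 = 1 / (bb b j : ℝ) ^ 8 * 1 := by ring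
        _ ≤ _ := mul_le_mul_of_nonneg_left this (by positivity)
    · refine (hcZ j hj).trans (Real.exp_le_exp.2 ?_)
      have h1 := Rb_le (2 ^ l) q (N : ℝ) (bb b j : ℝ) Nat.one_le_two_pow (by
        exact_mod_cast hN12) (by
        have : 2 ≤ bb b j := by have := hb3 j; omega
        exact_mod_cast this) (i + 1) hi
      refine h1.trans (le_of_eq ?_)
      rw [hcardX]
      push_cast
      ring
  · intro S
    have h1 : ∑ a, c J (slc S a) = 0 := Finset.sum_eq_zero (fun a _ => hL.cJ _)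
    rw [newc, h1, zero_add]
    split_ifs with hlt
    · have h2 : S.card = 0 := by
        by_contra hne
        have h3 : 1 ≤ S.card := Nat.one_le_iff_ne_zero.2 hne
        have h4 : 2 * N ^ (i + 1) ≤ 2 * N ^ q :=
          Nat.mul_le_mul_left _ (Nat.pow_le_pow_right hNpos hi)
        rw [hcardX] at hlt
        have h5 : (bb b J) ^ 2 * 1 ≤ (bb b J) ^ 2 * S.card := Nat.mul_le_mul_left _ h3
        omega
      rw [Finset.card_eq_zero] at h2
      rw [h2]
      simp [ecnt]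
    · rfl

/-- all levels exist -/
theorem lev_exists {q N N' l b J k κ m : ℕ} (hq : 1 ≤ q) (hN' : 0 < N') (hb : 1 ≤ b)
    (hm : m ≤ κ)
    (hN : N = 4 * q * N') (hΛ : 4 * (J + 1) ≤ 2 ^ l)
    (hB : 2 * q * (4 * (32 * q ^ 2) ^ 2) ≤ 2 ^ b)
    (hA1 : 2 * q * (6 * (4 * (32 * q ^ 2) ^ 2) + 8 * b + 2) ≤ 2 ^ (2 * b))
    (hA2 : 2 * q * l * 2 ^ (2 * b) ≤ 2 * N)
    (hN12 : 12 * (2 ^ l) ^ (q + 1) ≤ N)
    (hbJ : 2 * N ^ q ≤ (bb b J) ^ 2)
    (hP1 : 4 * 2 ^ (4 * b) * 2 ^ m * 3 ^ κ ≤ 4 ^ κ)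
    (hP0 : 4 * (2 ^ (4 * b)) ^ 2 * 2 ^ κ * 3 ^ k ≤ 4 ^ k) (i : ℕ) (hi : i ≤ q) :
    ∃ (V' : Type) (_ : Fintype V') (_ : DecidableEq V') (side' : V' → Bool)
      (H' : SimpleGraph V') (c' : ℕ → Finset V' → ℕ), Lev q N l b J k κ m i V' side' H' c' := by
  induction i with
  | zero => exact ⟨Bool, inferInstance, inferInstance, _, _, _, lev_zero hq hb hm⟩
  | succ i ih =>
    obtain ⟨V, _, _, side, H, c, hL⟩ := ih (by omega)
    exact lev_step hq (by omega) hN' hN hΛ hB hA1 hA2 hN12 hbJ hP1 hP0 hL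

end Run7.h264
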