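import Pool.Agent.Run7.h264.Lev

/-!
The main construction: choosable graphs on which Lister wins with many tokens.
-/

set_option autoImplicit false

namespace Run7.h264

open Finset

open Classical in
lemma conf_eq_sum {V : Type} [DecidableEq V] (H : SimpleGraph V) (O : V → Finset ℕ)
    (S : Finset V) : conf H O S =
      ∑ v ∈ S, (S.filter (fun u => H.Adj v u ∧ ¬ Disjoint (O v) (O u))).card := by
  rw [conf, Finset.card_filter, Finset.sum_product]
  apply Finset.sum_congr rfl
  intro v _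
  rw [Finset.card_filter]

open Classical in
/-- greedy colouring of a graph with few conflicts -/
lemma greedy {V : Type} [DecidableEq V] (H : SimpleGraph V) (O : V → Finset ℕ) (D : ℕ)
    (hO : ∀ v, D + 1 ≤ (O v).card) (hD : ∀ S : Finset V, conf H O S ≤ D * S.card)
    (S : Finset V) : ∃ c : V → ℕ, (∀ v ∈ S, c v ∈ O v) ∧
      ∀ u ∈ S, ∀ v ∈ S, H.Adj u v → c u ≠ c v := by
  induction S using Finset.strongInduction with
  | H S ih =>
    rcases S.eq_empty_or_nonempty with rfl | hne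
    · exact ⟨fun _ => 0, by simp, by simp⟩
    · have hex : ∃ v ∈ S, (S.filter (fun u => H.Adj v u ∧ ¬ Disjoint (O v) (O u))).card ≤ D := by
        apply Finset.exists_le_of_sum_le hne
        rw [← conf_eq_sum, Finset.sum_const, smul_eq_mul, mul_comm]
        exact hD S
      obtain ⟨v, hv, hdeg⟩ := hex
      obtain ⟨c, hc1, hc2⟩ := ih (S.erase v) (Finset.erase_ssubset hv)
      have hfree : ∃ x ∈ O v, x ∉ (S.filter (fun u => H.Adj v u ∧
          ¬ Disjoint (O v) (O u))).image c := by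
        by_contra hcon
        push Not at hcon
        have h1 : (O v).card ≤ ((S.filter (fun u => H.Adj v u ∧
          ¬ Disjoint (O v) (O u))).image c).card := Finset.card_le_card hcon
        have h2 := Finset.card_image_le (s := S.filter (fun u => H.Adj v u ∧
          ¬ Disjoint (O v) (O u))) (f := c)
        have h3 := hO v
        omega
      obtain ⟨x, hx1, hx2⟩ := hfree
      have hxu : ∀ u ∈ S, u ≠ v → H.Adj v u → x ≠ c u := by
        intro u hu huv hadj he
        by_cases hdis : Disjoint (O v) (O u)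
        · have h1 := hc1 u (Finset.mem_erase.2 ⟨huv, hu⟩)
          rw [← he] at h1
          exact (Finset.disjoint_left.1 hdis hx1) h1
        · apply hx2
          exact Finset.mem_image.2 ⟨u, Finset.mem_filter.2 ⟨hu, hadj, hdis⟩, he.symm⟩
      refine ⟨Function.update c v x, ?_, ?_⟩
      · intro w hw
        by_cases hwv : w = v
        · rw [hwv, Function.update_self]; exact hx1
        · rw [Function.update_of_ne hwv]
          exact hc1 w (Finset.mem_erase.2 ⟨hwv, hw⟩)
      · intro u hu w hw hadj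
        by_cases huv : u = v
        · have hwv : w ≠ v := by
            rintro rfl
            rw [huv] at hadj
            exact H.loopless.irrefl _ hadj
          rw [huv, Function.update_self, Function.update_of_ne hwv]
          rw [huv] at hadj
          exact hxu w hw hwv hadj
        · by_cases hwv : w = v
          · rw [hwv, Function.update_self, Function.update_of_ne huv]
            rw [hwv] at hadj
            exact (hxu u hu huv hadj.symm).symm
          · rw [Function.update_of_ne huv, Function.update_of_ne hwv]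
            exact hc2 u (Finset.mem_erase.2 ⟨huv, hu⟩) w (Finset.mem_erase.2 ⟨hwv, hw⟩) hadj

/-- the last level is choosable -/
theorem lev_choosable {q N l b J k κ m : ℕ} (hq : 1 ≤ q) (hm : m = 2 * (1 + 9 * J) + 1)
    (hP1 : 4 * 2 ^ (4 * b) * 2 ^ m * 3 ^ κ ≤ 4 ^ κ)
    (hP0 : 4 * (2 ^ (4 * b)) ^ 2 * 2 ^ κ * 3 ^ k ≤ 4 ^ k)
    {V : Type} [Fintype V] [DecidableEq V] {side : V → Bool} {H : SimpleGraph V}
    {c : ℕ → Finset V → ℕ} (hL : Lev q N l b J k κ m q V side H c)
    (L : V → Finset ℕ) (hk : ∀ v, k ≤ (L v).card) :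
    ∃ c : V → ℕ, (∀ v, c v ∈ L v) ∧ ∀ u v, H.Adj u v → c u ≠ c v := by
  classical
  obtain ⟨ρ, -, hρ⟩ := exists_pattern hP1 hP0 side L hk (fun _ => true)
  have hfail : 2 ^ (4 * b) * failc κ L side ρ ≤ Fintype.card V := by
    refine le_trans ?_ hρ
    apply Nat.mul_le_mul_right
    have h1 : 1 ≤ 2 ^ (4 * b) := Nat.one_le_two_pow
    nlinarith
  obtain ⟨O, hO1, hO2, -, -, hO5⟩ := hL.off L hk ρ ρ hfail
  have hc0 : ∀ j ≤ J, ∀ S, c (J - j) S ≤ 9 * j * S.card := by
    intro j
    induction j with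
    | zero => intro _ S; simp [hL.cJ S]
    | succ j ih =>
      intro hj S
      have h1 := ih (by omega) S
      have h2 := hL.cc (J - (j + 1)) (by omega) S
      have h3 : J - (j + 1) + 1 = J - j := by omega
      rw [h3] at h2
      calc _ ≤ _ := h2
        _ ≤ 9 * j * S.card + 9 * S.card := Nat.add_le_add_right h1 _
        _ = _ := by ring
  have hconf : ∀ S : Finset V, conf H O S ≤ (2 * (1 + 9 * J)) * S.card := by
    intro S
    have h1 := hO5 S
    have h2 := hc0 J le_rfl S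
    rw [Nat.sub_self] at h2
    have h3 : q * conf H O S ≤ q * ((2 * (1 + 9 * J)) * S.card) := by
      calc q * conf H O S ≤ 2 * (q * S.card + q * c 0 S) := h1
        _ ≤ 2 * (q * S.card + q * (9 * J * S.card)) := by gcongr
        _ = _ := by ring
    exact Nat.le_of_mul_le_mul_left h3 hq
  obtain ⟨c', hc1, hc2⟩ := greedy H O (2 * (1 + 9 * J)) (fun v => by
    have := hO2 v
    omega) hconf univ
  exact ⟨c', fun v => hO1 v (hc1 v (mem_univ v)), fun u v => hc2 u (mem_univ u) v (mem_univ v)⟩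

/-- parameters -/
theorem params (t : ℕ) : ∃ (V : Type) (_ : Fintype V) (_ : DecidableEq V) (side : V → Bool)
    (H : SimpleGraph V), OnP (2 ^ t) (2 ^ t) side H ∧
      ∀ L : V → Finset ℕ, (∀ v, 624 * t + 1155 ≤ (L v).card) →
        ∃ c : V → ℕ, (∀ v, c v ∈ L v) ∧ ∀ u v, H.Adj u v → c u ≠ c v := by
  obtain ⟨b, hb⟩ : ∃ b, b = 5 * t + 13 := ⟨_, rfl⟩
  obtain ⟨l, hl⟩ : ∃ l, l = t + 4 := ⟨_, rfl⟩
  obtain ⟨q, hq⟩ : ∃ q, q = 2 ^ t := ⟨_, rfl⟩
  obtain ⟨J, hJ⟩ : ∃ J, J = 2 * t + 2 := ⟨_, rfl⟩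
  obtain ⟨ν, hν⟩ : ∃ ν, ν = 4 + l * (q + 1) + t + 2 * b := ⟨_, rfl⟩
  obtain ⟨m, hm⟩ : ∃ m, m = 2 * (1 + 9 * J) + 1 := ⟨_, rfl⟩
  obtain ⟨κ, hκ⟩ : ∃ κ, κ = 3 * (m + 4 * b + 2) := ⟨_, rfl⟩
  obtain ⟨k, hk⟩ : ∃ k, k = 3 * (κ + 8 * b + 2) := ⟨_, rfl⟩
  have hkk : k = 624 * t + 1155 := by omega
  have htq : t + 1 ≤ q := by rw [hq]; exact Nat.lt_two_pow_self
  have hq1 : 1 ≤ q := by omega
  have h3 : ∀ s : ℕ, 2 ^ s * 3 ^ (3 * s) ≤ 4 ^ (3 * s) := by
    intro s
    rw [pow_mul, pow_mul, ← mul_pow]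
    exact Nat.pow_le_pow_left (by norm_num) s
  have hP1 : 4 * 2 ^ (4 * b) * 2 ^ m * 3 ^ κ ≤ 4 ^ κ := by
    have h1 : 4 * 2 ^ (4 * b) * 2 ^ m = 2 ^ (m + 4 * b + 2) := by
      rw [pow_add, pow_add]; ring
    rw [h1, hκ]
    exact h3 _
  have hP0 : 4 * (2 ^ (4 * b)) ^ 2 * 2 ^ κ * 3 ^ k ≤ 4 ^ k := by
    have h1 : 4 * (2 ^ (4 * b)) ^ 2 * 2 ^ κ = 2 ^ (κ + 8 * b + 2) := by
      rw [← pow_mul, pow_add, pow_add]
      have : 4 * b * 2 = 8 * b := by ring
      rw [this]
      ring
    rw [h1, hk]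
    exact h3 _
  have hlev := lev_exists (q := q) (N := 2 ^ ν) (N' := 2 ^ (ν - t - 2)) (l := l) (b := b)
    (J := J) (k := k) (κ := κ) (m := m) hq1 (by positivity) (by omega) (by omega)
    (by
      have h1 : ν = 2 + t + (ν - t - 2) := by
        have : t + 2 ≤ ν := by rw [hν]; omega
        omega
      calc 2 ^ ν = 2 ^ (2 + t + (ν - t - 2)) := by rw [← h1]
        _ = 4 * q * 2 ^ (ν - t - 2) := by rw [hq, pow_add, pow_add]; norm_num)
    (by
      rw [hl, pow_add, ← hq, hJ]
      omega)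
    (by
      apply le_of_eq
      rw [hq, hb]
      have : 2 ^ (5 * t + 13) = 8192 * (2 ^ t) ^ 5 := by
        rw [pow_add, ← pow_mul]; ring
      rw [this]
      ring)
    (by
      have h1 : 2 ^ (2 * b) = 67108864 * q ^ 10 := by
        rw [hb, hq, ← pow_mul]
        have : 2 * (5 * t + 13) = 26 + t * 10 := by ring
        rw [this, pow_add]
        norm_num
      rw [h1, hb]
      have h2 : 8 * (5 * t + 13) + 2 ≤ 146 * q := by omega
      have h4 : q ≤ q ^ 4 := Nat.le_self_pow (by norm_num) _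
      have h5 : q ^ 5 ≤ q ^ 10 := Nat.pow_le_pow_right hq1 (by norm_num)
      calc 2 * q * (6 * (4 * (32 * q ^ 2) ^ 2) + 8 * (5 * t + 13) + 2)
          = 2 * q * (24576 * q ^ 4 + (8 * (5 * t + 13) + 2)) := by ring
        _ ≤ 2 * q * (24576 * q ^ 4 + 146 * q ^ 4) := by
            apply Nat.mul_le_mul_left
            omega
        _ = 49444 * q ^ 5 := by ring
        _ ≤ 67108864 * q ^ 10 := Nat.mul_le_mul (by norm_num) h5)
    (by
      have h1 : l ≤ 2 ^ l := Nat.lt_two_pow_self.le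
      calc 2 * q * l * 2 ^ (2 * b) ≤ 2 * q * 2 ^ l * 2 ^ (2 * b) := by gcongr
        _ = 2 * 2 ^ (t + l + 2 * b) := by rw [hq, pow_add, pow_add]; ring
        _ ≤ 2 * 2 ^ ν := by
            apply Nat.mul_le_mul_left
            apply Nat.pow_le_pow_right (by norm_num)
            rw [hν]
            have : l ≤ l * (q + 1) := Nat.le_mul_of_pos_right _ (by omega)
            omega)
    (by
      calc 12 * (2 ^ l) ^ (q + 1) ≤ 2 ^ 4 * (2 ^ l) ^ (q + 1) := by gcongr; norm_num
        _ = 2 ^ (4 + l * (q + 1)) := by rw [← pow_mul, ← pow_add]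
        _ ≤ 2 ^ ν := by
            apply Nat.pow_le_pow_right (by norm_num)
            rw [hν]; omega)
    (by
      have h1 : (bb b J) ^ 2 = 2 ^ (b * 2 ^ J * 2) := by
        rw [bb, ← pow_mul, ← pow_mul, mul_assoc]
      have h2 : 2 * (2 ^ ν) ^ q = 2 ^ (ν * q + 1) := by
        rw [pow_add, pow_mul]; ring
      rw [h1, h2]
      apply Nat.pow_le_pow_right (by norm_num)
      have h4 : 2 ^ J = 4 * q ^ 2 := by
        rw [hJ, hq, ← pow_mul, pow_add]
        have : 2 * t = t * 2 := by ring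
        rw [this]; ring
      rw [h4, hν, hl, hb]
      have h5 : q ≤ q ^ 2 := Nat.le_self_pow (by norm_num) _
      have h6 : 1 ≤ q ^ 2 := Nat.one_le_pow _ _ hq1
      calc (4 + (t + 4) * (q + 1) + t + 2 * (5 * t + 13)) * q + 1
          = (t + 4) * q ^ 2 + (12 * t + 34) * q + 1 := by ring
        _ ≤ (t + 4) * q ^ 2 + (12 * t + 34) * q ^ 2 + q ^ 2 := by gcongr
        _ = (13 * t + 39) * q ^ 2 := by ring
        _ ≤ (40 * t + 104) * q ^ 2 := Nat.mul_le_mul_right _ (by omega)
        _ = _ := by ring)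
    hP1 hP0 q le_rfl
  obtain ⟨V, _, _, side, H, c, hL⟩ := hlev
  refine ⟨V, inferInstance, inferInstance, side, H, ?_, ?_⟩
  · rw [← hq]; exact hL.on
  · intro L hLL
    rw [← hkk] at hLL
    exact lev_choosable hq1 hm hP1 hP0 hL L hLL

/-- The main construction. -/
theorem construction (t K : ℕ) (hK : 2 * K ≤ 2 ^ t + 1) :
    ∃ (n : ℕ) (G : SimpleGraph (Fin n)),
      (∀ L : Fin n → Finset ℕ, (∀ v, 624 * t + 1155 ≤ (L v).card) →
        ∃ c : Fin n → ℕ, (∀ v, c v ∈ L v) ∧ ∀ u v, G.Adj u v → c u ≠ c v) ∧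
      LW G Finset.univ (fun _ => K) := by
  classical
  obtain ⟨V, _, _, side, H, hon, hch⟩ := params t
  let e := Fintype.equivFin V
  refine ⟨Fintype.card V, H.comap e.symm, ?_, ?_⟩
  · intro L hL
    obtain ⟨c, hc1, hc2⟩ := hch (fun v => L (e v)) (fun v => hL (e v))
    refine ⟨fun x => c (e.symm x), fun x => ?_, fun u v huv => ?_⟩
    · have := hc1 (e.symm x)
      simpa using this
    · exact hc2 _ _ huv
  · refine hon (Fin (Fintype.card V)) (H.comap e.symm) e e.injective ?_ univ (fun _ => K)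
      (fun _ => K) ?_ ?_ ?_
    · intro x y hxy
      simpa using hxy
    · simp
    · intro v _
      exact le_rfl
    · omega

end Run7.h264
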