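import Pool.Agent.Run7.h264.Defs

/-!
The on-line side: Lister wins with few tokens.
-/

set_option autoImplicit false

namespace Run7.h264

/-- Lister wins as soon as an uncoloured vertex has no token. -/
lemma LW_of_zero {W : Type} [DecidableEq W] (G : SimpleGraph W) (U : Finset W) (f : W → ℕ) (w : W)
    (hw : w ∈ U) (hf : f w = 0) : LW G U f := by
  refine LW.step U f {w} (by simpa using hw) ⟨w, by simp⟩ ?_
  intro I hI hind h1 h2
  have := h1 w (by simp)
  omega

open Classical in
/-- Lister wins if one side has no token and few vertices are coloured. -/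
lemma LW_of_side_zero {V : Type} [Fintype V] (side : V → Bool) {q i : ℕ} (hq : 0 < q)
    (hV : 0 < Fintype.card V)
    (hs : ∀ s, 2 * (Finset.univ.filter (fun v => side v = s)).card = Fintype.card V)
    {W : Type} [DecidableEq W] (G : SimpleGraph W) (φ : V → W) (U : Finset W)
    (f : W → ℕ) (F : Bool → ℕ)
    (hU : 4 * q * (Finset.univ.filter (fun v => φ v ∉ U)).card ≤ (q - i) * Fintype.card V)
    (hF : ∀ v, φ v ∈ U → f (φ v) ≤ F (side v)) (s : Bool) (hs0 : F s = 0) : LW G U f := by
  by_contra hcon
  have hsub : (Finset.univ.filter (fun v => side v = s)) ⊆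
      (Finset.univ.filter (fun v => φ v ∉ U)) := by
    intro v hv
    simp only [Finset.mem_filter, Finset.mem_univ, true_and] at hv ⊢
    intro hvU
    apply hcon
    refine LW_of_zero G U f (φ v) hvU ?_
    have := hF v hvU
    rw [hv, hs0] at this
    omega
  have h1 := Finset.card_le_card hsub
  have h2 := hs s
  have h3 : (q - i) * Fintype.card V ≤ q * Fintype.card V := Nat.mul_le_mul_right _ (Nat.sub_le _ _)
  have h4 : q * (2 * (Finset.univ.filter (fun v => side v = s)).card) = q * Fintype.card V := by
    rw [h2]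
  have h5 : 4 * q * (Finset.univ.filter (fun v => side v = s)).card ≤ q * Fintype.card V := by
    calc _ ≤ 4 * q * (Finset.univ.filter (fun v => φ v ∉ U)).card := Nat.mul_le_mul_left _ h1
      _ ≤ _ := hU.trans h3
  have h6 : 0 < q * Fintype.card V := Nat.mul_pos hq hV
  nlinarith

/-- base level -/
lemma on_zero {q : ℕ} (hq : 0 < q) : OnP q 0 (fun b : Bool => b) (⊥ : SimpleGraph Bool) := by
  classical
  intro W _ G φ hφ hadj U f F hU hF hsum
  have hs : ∀ s : Bool, 2 * (Finset.univ.filter (fun v : Bool => (fun b : Bool => b) v = s)).card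
      = Fintype.card Bool := by
    intro s
    simp [Finset.filter_eq']
  rcases Nat.eq_zero_or_pos (F true) with h | h
  · exact LW_of_side_zero (fun b : Bool => b) hq (by simp) hs G φ U f F (by convert hU) hF true h
  · exact LW_of_side_zero (fun b : Bool => b) hq (by simp) hs G φ U f F (by convert hU) hF false
      (by omega)

open Classical in
/-- Markov's inequality for copies: many copies with few coloured vertices -/
lemma many_good {N m y Q : ℕ} (C : Fin N → ℕ) (hm : 0 < m)
    (hC : Q * ∑ a, C a ≤ 2 * y * (N * m)) :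
    N ≤ (2 * y + 1) * (Finset.univ.filter (fun a => Q * C a ≤ (2 * y + 1) * m)).card := by
  set g := (Finset.univ.filter (fun a => Q * C a ≤ (2 * y + 1) * m)).card with hg
  set b := (Finset.univ.filter (fun a => ¬ Q * C a ≤ (2 * y + 1) * m)).card with hb
  have hgb : g + b = N := by
    rw [hg, hb, Finset.card_filter_add_card_filter_not]
    simp
  have h1 : b * ((2 * y + 1) * m) ≤ Q * ∑ a, C a := by
    calc b * ((2 * y + 1) * m)
        = ∑ a ∈ Finset.univ.filter (fun a => ¬ Q * C a ≤ (2 * y + 1) * m), ((2 * y + 1) * m) := by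
          rw [Finset.sum_const, smul_eq_mul]
      _ ≤ ∑ a ∈ Finset.univ.filter (fun a => ¬ Q * C a ≤ (2 * y + 1) * m), Q * C a := by
          apply Finset.sum_le_sum
          intro a ha
          simp only [Finset.mem_filter, Finset.mem_univ, true_and, not_le] at ha
          exact ha.le
      _ ≤ ∑ a, Q * C a := Finset.sum_le_sum_of_subset (Finset.subset_univ _)
      _ = Q * ∑ a, C a := by rw [Finset.mul_sum]
  have h2 : b * (2 * y + 1) * m ≤ 2 * y * N * m := by
    calc b * (2 * y + 1) * m = b * ((2 * y + 1) * m) := by ring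
      _ ≤ 2 * y * (N * m) := h1.trans hC
      _ = _ := by ring
  have h3 : b * (2 * y + 1) ≤ 2 * y * N := Nat.le_of_mul_le_mul_right h2 hm
  nlinarith

open Classical in
/-- On-line step. -/
theorem on_step {V : Type} [Fintype V] [DecidableEq V] {q i N' N d : ℕ} (hq : 0 < q) (hi : i < q)
    (hN' : 0 < N') (hN : N = 4 * q * N') (side : V → Bool) (H : SimpleGraph V)
    (h : (Fin N × V) × Fin d → Fin N × V)
    (hs : ∀ s, 2 * (Finset.univ.filter (fun v => side v = s)).card = Fintype.card V)
    (hV : 0 < Fintype.card V)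
    (hE : ∀ X Y : Finset (Fin N × V), Fintype.card (Fin N × V) ≤ 32 * q ^ 2 * X.card →
      Fintype.card (Fin N × V) ≤ 32 * q ^ 2 * Y.card → ∃ x ∈ X, ∃ j, h (x, j) ∈ Y)
    (hon : OnP q i side H) : OnP q (i + 1) (fun x : Fin N × V => side x.2) (newG H side h) := by
  intro W _ G φ hφ hadj U f F hU hF hsum
  -- sizes
  have hs' : ∀ s, 2 * (Finset.univ.filter (fun x : Fin N × V => side x.2 = s)).card
      = Fintype.card (Fin N × V) := by
    intro s
    have : (Finset.univ.filter (fun x : Fin N × V => side x.2 = s)) =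
        Finset.univ ×ˢ (Finset.univ.filter (fun v => side v = s)) := by
      ext x; simp
    rw [this, Finset.card_product, Fintype.card_prod, Finset.card_univ, ← hs s]
    ring
  have hcardX : Fintype.card (Fin N × V) = N * Fintype.card V := by
    rw [Fintype.card_prod, Fintype.card_fin]
  have hNpos : 0 < N := by rw [hN]; positivity
  have hXpos : 0 < Fintype.card (Fin N × V) := by rw [hcardX]; positivity
  by_cases hz : ∃ s, F s = 0
  · obtain ⟨s, hs0⟩ := hz
    exact LW_of_side_zero (fun x : Fin N × V => side x.2) hq hXpos hs' G φ U f F hU hF s hs0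
  push Not at hz
  set m := Fintype.card V with hm
  -- coloured vertices in a copy
  let C : Fin N → ℕ := fun a => (Finset.univ.filter (fun v => φ (a, v) ∉ U)).card
  have hCsum : (Finset.univ.filter (fun x : Fin N × V => φ x ∉ U)).card = ∑ a, C a := by
    rw [Finset.card_filter, Fintype.sum_prod_type]
    apply Finset.sum_congr rfl
    intro a _
    simp only [C, Finset.card_filter]
  obtain ⟨y, hy⟩ : ∃ y, q - (i + 1) = y := ⟨_, rfl⟩
  have hyq : y + 1 ≤ q := by omega
  have hqi : q - i = y + 1 := by omega
  have hgood := many_good (N := N) (m := m) (y := y) (Q := 8 * q) C hV (by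
    rw [hCsum, hcardX, hy] at hU
    nlinarith)
  set gd := Finset.univ.filter (fun a => 8 * q * C a ≤ (2 * y + 1) * m) with hgd
  have hgd2 : 2 * N' ≤ gd.card := by
    have h1 : 4 * q * N' ≤ (2 * q) * gd.card := by
      calc 4 * q * N' = N := hN.symm
        _ ≤ (2 * y + 1) * gd.card := hgood
        _ ≤ (2 * q) * gd.card := Nat.mul_le_mul_right _ (by omega)
    have h2 : (2 * q) * (2 * N') ≤ (2 * q) * gd.card := by
      calc (2 * q) * (2 * N') = 4 * q * N' := by ring
        _ ≤ _ := h1
    exact Nat.le_of_mul_le_mul_left h2 (by positivity)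
  -- two disjoint sets of copies
  obtain ⟨A0, hA0s, hA0c⟩ := Finset.exists_subset_card_eq (s := gd) (n := N') (by omega)
  obtain ⟨B0, hB0s, hB0c⟩ := Finset.exists_subset_card_eq (s := gd \ A0) (n := N') (by
    rw [Finset.card_sdiff_of_subset hA0s]; omega)
  let K : Bool → Finset (Fin N) := fun s => if s then A0 else B0
  have hKc : ∀ s, (K s).card = N' := by
    intro s; cases s
    · simpa [K] using hB0c
    · simpa [K] using hA0c
  have hKg : ∀ s, K s ⊆ gd := by
    intro s; cases s
    · simpa [K] using hB0s.trans Finset.sdiff_subset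
    · simpa [K] using hA0s
  have hKd : ∀ a s s', a ∈ K s → a ∈ K s' → s = s' := by
    intro a s s' h1 h2
    cases s <;> cases s' <;> simp only [K, if_true, if_false, Bool.false_eq_true] at h1 h2 ⊢
    · exact absurd h2 (Finset.mem_sdiff.1 (hB0s h1)).2
    · exact absurd h1 (Finset.mem_sdiff.1 (hB0s h2)).2
  -- the presented set
  let P : Finset (Fin N × V) := Finset.univ.filter (fun x => φ x ∈ U ∧ x.1 ∈ K (side x.2))
  let M : Finset W := P.image φ
  have hmemM : ∀ x, φ x ∈ M ↔ (φ x ∈ U ∧ x.1 ∈ K (side x.2)) := by
    intro x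
    simp only [M, P, Finset.mem_image, Finset.mem_filter, Finset.mem_univ, true_and]
    constructor
    · rintro ⟨x', hx', he⟩
      rw [hφ he] at hx'
      exact hx'
    · intro hx
      exact ⟨x, hx, rfl⟩
  have hMU : M ⊆ U := by
    intro w hw
    obtain ⟨x, hx, rfl⟩ := Finset.mem_image.1 hw
    exact ((hmemM x).1 hw).1
  -- a copy from K s with s has an uncoloured vertex of side s
  have hMne : M.Nonempty := by
    obtain ⟨a, ha⟩ : (K true).Nonempty := by
      rw [← Finset.card_pos, hKc]; exact hN'
    have hag := hKg true ha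
    simp only [hgd, Finset.mem_filter, Finset.mem_univ, true_and] at hag
    by_contra hcon
    have hsub : (Finset.univ.filter (fun v => side v = true)) ⊆
        (Finset.univ.filter (fun v => φ (a, v) ∉ U)) := by
      intro v hv
      simp only [Finset.mem_filter, Finset.mem_univ, true_and] at hv ⊢
      intro hvU
      apply hcon
      refine ⟨φ (a, v), (hmemM (a, v)).2 ⟨hvU, ?_⟩⟩
      simpa [hv] using ha
    have h1 : (Finset.univ.filter (fun v => side v = true)).card ≤ C a := Finset.card_le_card hsub
    have h2 := hs true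
    have h3 : 4 * q * m ≤ 8 * q * C a := by
      rw [← h2]
      calc 4 * q * (2 * (Finset.univ.filter (fun v => side v = true)).card)
          = 8 * q * (Finset.univ.filter (fun v => side v = true)).card := by ring
        _ ≤ 8 * q * C a := Nat.mul_le_mul_left _ h1
    have h4 : 4 * q * m ≤ (2 * y + 1) * m := h3.trans hag
    have h5 : 4 * q ≤ 2 * y + 1 := Nat.le_of_mul_le_mul_right h4 hV
    omega
  refine LW.step U f M hMU hMne ?_
  intro I hIM hind hf1 hf2
  -- captured sets
  let X : Bool → Finset (Fin N × V) := fun s => Finset.univ.filter (fun x => φ x ∈ I ∧ side x.2 = s)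
  have hsmall : ∃ s, 32 * q ^ 2 * (X s).card < Fintype.card (Fin N × V) := by
    by_contra hcon
    push Not at hcon
    obtain ⟨x, hx, j, hxy⟩ := hE (X true) (X false) (hcon true) (hcon false)
    simp only [X, Finset.mem_filter, Finset.mem_univ, true_and] at hx hxy
    refine hind _ hx.1 _ hxy.1 (hadj _ _ ?_)
    refine Or.inr ⟨?_, j, Or.inl rfl⟩
    rw [hx.2, hxy.2]
    decide
  obtain ⟨s, hss⟩ := hsmall
  -- a copy with few captured vertices
  let Xa : Fin N → ℕ := fun a => (Finset.univ.filter (fun v => φ (a, v) ∈ I)).card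
  have hXside : ∀ a ∈ K s, ∀ v, φ (a, v) ∈ I → side v = s := by
    intro a ha v hv
    have := ((hmemM (a, v)).1 (hIM hv)).2
    exact hKd a _ _ this ha
  have hXsum : ∑ a ∈ K s, Xa a ≤ (X s).card := by
    have h1 : (X s).card = ∑ a, (Finset.univ.filter (fun v => φ (a, v) ∈ I ∧ side v = s)).card := by
      simp only [X]
      rw [Finset.card_filter, Fintype.sum_prod_type]
      apply Finset.sum_congr rfl
      intro a _
      simp only [Finset.card_filter]
    rw [h1]
    calc ∑ a ∈ K s, Xa a
        = ∑ a ∈ K s, (Finset.univ.filter (fun v => φ (a, v) ∈ I ∧ side v = s)).card := by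
          apply Finset.sum_congr rfl
          intro a ha
          simp only [Xa]
          congr 1
          ext v
          simp only [Finset.mem_filter, Finset.mem_univ, true_and]
          exact ⟨fun hv => ⟨hv, hXside a ha v hv⟩, fun hv => hv.1⟩
      _ ≤ _ := Finset.sum_le_sum_of_subset (Finset.subset_univ _)
  have hcopy : ∃ a ∈ K s, 8 * q * Xa a ≤ m := by
    by_contra hcon
    push Not at hcon
    have h1 : N' * m ≤ 8 * q * (X s).card := by
      calc N' * m = ∑ a ∈ K s, m := by rw [Finset.sum_const, hKc, smul_eq_mul]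
        _ ≤ ∑ a ∈ K s, 8 * q * Xa a := Finset.sum_le_sum (fun a ha => (hcon a ha).le)
        _ = 8 * q * ∑ a ∈ K s, Xa a := by rw [Finset.mul_sum]
        _ ≤ _ := Nat.mul_le_mul_left _ hXsum
    have h2 : N * m ≤ 32 * q ^ 2 * (X s).card := by
      calc N * m = 4 * q * (N' * m) := by rw [hN]; ring
        _ ≤ 4 * q * (8 * q * (X s).card) := Nat.mul_le_mul_left _ h1
        _ = _ := by ring
    rw [hcardX] at hss
    omega
  obtain ⟨a, ha, hXa⟩ := hcopy
  have hag := hKg s ha
  simp only [hgd, Finset.mem_filter, Finset.mem_univ, true_and] at hag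
  -- recurse
  refine hon W G (fun v => φ (a, v)) ?_ ?_ (U \ I) _ (Function.update F s (F s - 1)) ?_ ?_ ?_
  · intro v v' hvv
    have := hφ hvv
    simpa using this
  · intro x y' hxy
    exact hadj _ _ (Or.inl ⟨rfl, hxy⟩)
  · have h1 : (Finset.univ.filter (fun v => φ (a, v) ∉ U \ I)).card ≤ C a + Xa a := by
      simp only [C, Xa]
      refine (Finset.card_le_card ?_).trans (Finset.card_union_le _ _)
      intro v hv
      simp only [Finset.mem_filter, Finset.mem_univ, true_and, Finset.mem_union,
        Finset.mem_sdiff, not_and, not_not] at hv ⊢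
      by_cases hvU : φ (a, v) ∈ U
      · exact Or.inr (hv hvU)
      · exact Or.inl hvU
    rw [hqi]
    have h2 : 2 * (4 * q * (Finset.univ.filter (fun v => φ (a, v) ∉ U \ I)).card)
        ≤ 2 * ((y + 1) * m) := by
      calc 2 * (4 * q * (Finset.univ.filter (fun v => φ (a, v) ∉ U \ I)).card)
          = 8 * q * (Finset.univ.filter (fun v => φ (a, v) ∉ U \ I)).card := by ring
        _ ≤ 8 * q * (C a + Xa a) := Nat.mul_le_mul_left _ h1
        _ = 8 * q * C a + 8 * q * Xa a := by ring
        _ ≤ (2 * y + 1) * m + m := Nat.add_le_add hag hXa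
        _ = _ := by ring
    exact Nat.le_of_mul_le_mul_left h2 (by norm_num)
  · intro v hv
    obtain ⟨hvU, hvI⟩ := Finset.mem_sdiff.1 hv
    have hfv := hF (a, v) hvU
    simp only at hfv ⊢
    by_cases hvs : side v = s
    · have hvM : φ (a, v) ∈ M := (hmemM (a, v)).2 ⟨hvU, by simpa [hvs] using ha⟩
      rw [if_pos hvM, hvs, Function.update_self]
      rw [hvs] at hfv
      omega
    · have hvM : φ (a, v) ∉ M := by
        intro hvM
        exact hvs (hKd a _ _ ((hmemM (a, v)).1 hvM).2 ha)
      rw [if_neg hvM, Function.update_of_ne hvs]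
      exact hfv
  · have h1 := hz s
    cases s
    · simp only [Function.update_self, ne_eq, Bool.true_eq_false, not_false_eq_true,
        Function.update_of_ne]
      omega
    · simp only [Function.update_self, ne_eq, Bool.false_eq_true, not_false_eq_true,
        Function.update_of_ne]
      omega

end Run7.h264
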